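import Pool.Agent.Work.MP_f474fe_lc.PT.Model

/-!
Monotone decomposable circuits on the entries of an `m × n` matrix of bits, and the mean of a
function under the null law and under the planted law k-BPC.
-/

namespace Pool.Agent.Work.MP_f474fe_lc.DD

open Finset Pool.Agent.Work.MP_f474fe_lc.PT

/-- The set `X` of positions is covered by at most `t` lines (rows or columns). -/
def Lines {m n : ℕ} (t : ℕ) (X : Finset (Fin m × Fin n)) : Prop :=
  ∃ (R : Finset (Fin m)) (C : Finset (Fin n)), R.card + C.card ≤ t ∧ ∀ e ∈ X, e.1 ∈ R ∨ e.2 ∈ C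

/-- `f` is computed at some gate of a circuit with `s` gates. Gate `i` has a set `X i` of positions
and computes the real function `g i`. It is a leaf (any nonnegative function of the entries in
`X i`, a set covered by at most `t` lines), or a nonnegative combination of earlier gates with
positions inside `X i`, or the product of two earlier gates whose sets of positions are disjoint
with union `X i`. -/
def DecCirc {m n : ℕ} (t s : ℕ) (f : (Fin m × Fin n → Bool) → ℝ) : Prop :=
  ∃ (X : Fin s → Finset (Fin m × Fin n)) (g : Fin s → (Fin m × Fin n → Bool) → ℝ),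
    (∀ i,
      (Lines t (X i) ∧ (∀ G G', (∀ e ∈ X i, G e = G' e) → g i G = g i G') ∧ ∀ G, 0 ≤ g i G) ∨
      (∃ a : Fin s → ℝ, (∀ j, 0 ≤ a j) ∧ (∀ j, a j ≠ 0 → j < i ∧ X j ⊆ X i) ∧
        ∀ G, g i G = ∑ j, a j * g j G) ∨
      (∃ j k, j < i ∧ k < i ∧ Disjoint (X j) (X k) ∧ X i = X j ∪ X k ∧
        ∀ G, g i G = g j G * g k G)) ∧
    ∃ i, g i = f

/-- Mean of `f` on a uniform bipartite graph. -/
noncomputable def nullMean {m n : ℕ} (f : (Fin m × Fin n → Bool) → ℝ) : ℝ :=
  (∑ G, f G) / 2 ^ (m * n)

/-- Mean of `f` on a uniform bipartite graph with a uniform pair `(S, T)` planted. -/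
noncomputable def plantMean {m n kn : ℕ} (km : ℕ) (E : Fin n → Fin kn)
    (f : (Fin m × Fin n → Bool) → ℝ) : ℝ :=
  (∑ z ∈ univ ×ˢ Secrets m km E, f (plant z.1 z.2)) / (2 ^ (m * n) * (Secrets m km E).card)

end Pool.Agent.Work.MP_f474fe_lc.DD
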