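import Pool.Agent.Work.MP_f474fe_lc.PT.Holes
import Mathlib
import Pool.Agent.Work.MP_f474fe_lc.DD.Model

-- merged part: Pool.Agent.Work.MP_f474fe_lc.DD.Four
section
/-!
Fourier coefficients of functions on the cube, dependence on a set of coordinates, independence.
-/

set_option linter.unusedSectionVars false

namespace Pool.Agent.Work.MP_f474fe_lc.DD

open Finset BigOperators Pool.Agent.Work.MP_f474fe_lc.PT

variable {ι : Type} [Fintype ι] [DecidableEq ι]

/-- `g` depends only on the coordinates in `X`. -/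
def Dep (X : Finset ι) (g : (ι → Bool) → ℝ) : Prop :=
  ∀ x y : ι → Bool, (∀ e ∈ X, x e = y e) → g x = g y

/-- Character of the cube. -/
def chi (A : Finset ι) (x : ι → Bool) : ℝ := ∏ i ∈ A, sg (x i)

/-- Fourier coefficient. -/
noncomputable def fc (g : (ι → Bool) → ℝ) (A : Finset ι) : ℝ := 𝔼 x, g x * chi A x

lemma Dep.mono {X Y : Finset ι} {g : (ι → Bool) → ℝ} (h : Dep X g) (hXY : X ⊆ Y) : Dep Y g :=
  fun x y hxy => h x y fun e he => hxy e (hXY he)

lemma Dep.mul {X : Finset ι} {g h : (ι → Bool) → ℝ} (hg : Dep X g) (hh : Dep X h) :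
    Dep X fun x => g x * h x := fun x y hxy => by
  simp only [hg x y hxy, hh x y hxy]

lemma Dep.plant {X : Finset ι} {g : (ι → Bool) → ℝ} (hg : Dep X g) (H : Finset ι) :
    Dep X fun x => g (plantH H x) := fun x y hxy =>
  hg _ _ fun e he => by simp only [plantH, hxy e he]

lemma dep_chi (A : Finset ι) : Dep A (chi A) := fun x y hxy =>
  prod_congr rfl fun e he => by rw [hxy e he]

lemma indep {X Y : Finset ι} {F G : (ι → Bool) → ℝ} (hF : Dep X F) (hG : Dep Y G)
    (hXY : Disjoint X Y) : 𝔼 x, F x * G x = (𝔼 x, F x) * 𝔼 x, G x := by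
  have hinv : Function.Involutive fun p : (ι → Bool) × (ι → Bool) =>
      (X.piecewise p.1 p.2, X.piecewise p.2 p.1) := by
    intro p
    ext i <;> by_cases h : i ∈ X <;> simp [h]
  have h1 : 𝔼 p : (ι → Bool) × (ι → Bool), F p.1 * G p.2 =
      𝔼 p : (ι → Bool) × (ι → Bool), F p.1 * G p.1 := by
    refine Fintype.expect_equiv hinv.toPerm _ _ fun p => ?_
    change _ = F (X.piecewise p.1 p.2) * G (X.piecewise p.1 p.2)
    rw [hF (X.piecewise p.1 p.2) p.1 fun e he => by simp [he],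
      hG (X.piecewise p.1 p.2) p.2 fun e he => by simp [disjoint_right.1 hXY he]]
  rw [expect_mul_expect, ← expect_product', univ_product_univ, h1, ← univ_product_univ,
    expect_product]
  simp only [expect_const univ_nonempty]

lemma expect_chi (A : Finset ι) : 𝔼 x, chi A x = if A = ∅ then 1 else 0 := by
  split_ifs with h
  · simp [h, chi]
  · obtain ⟨i, hi⟩ := nonempty_iff_ne_empty.2 h
    rw [expect_update i]
    refine expect_eq_zero fun x _ => ?_
    have : ∀ l : Bool, chi A (Function.update x i l) = sg l * chi (A.erase i) x := by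
      intro l
      unfold chi
      rw [← mul_prod_erase _ _ hi, Function.update_self]
      congr 1
      exact prod_congr rfl fun j hj => by rw [Function.update_of_ne (ne_of_mem_erase hj)]
    simp only [this]
    rw [← expect_mul, Fintype.expect_eq_sum_div_card]
    simp [sg]

lemma chi_union {A B : Finset ι} (h : Disjoint A B) (x : ι → Bool) :
    chi (A ∪ B) x = chi A x * chi B x := prod_union h

lemma fc_zero {X A : Finset ι} {g : (ι → Bool) → ℝ} (hg : Dep X g) (hA : ¬ A ⊆ X) :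
    fc g A = 0 := by
  have h1 : ∀ x, g x * chi A x = (g x * chi (A ∩ X) x) * chi (A \ X) x := by
    intro x
    rw [mul_assoc, ← chi_union (disjoint_sdiff_inter A X).symm, union_comm, sdiff_union_inter]
  unfold fc
  simp only [h1]
  rw [indep (hg.mul ((dep_chi _).mono inter_subset_right)) (dep_chi (A \ X)) disjoint_sdiff,
    expect_chi, if_neg (by rwa [sdiff_eq_empty_iff_subset]), mul_zero]

lemma fc_mul {Y : Finset ι} {F G : (ι → Bool) → ℝ} (hF : Dep Y F) (hG : Dep Yᶜ G)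
    (A : Finset ι) : fc (fun x => F x * G x) A = fc F (A ∩ Y) * fc G (A \ Y) := by
  have h1 : ∀ x, F x * G x * chi A x = (F x * chi (A ∩ Y) x) * (G x * chi (A \ Y) x) := by
    intro x
    rw [mul_mul_mul_comm, ← chi_union (disjoint_sdiff_inter A Y).symm, union_comm,
      sdiff_union_inter]
  unfold fc
  simp only [h1]
  exact indep (hF.mul ((dep_chi _).mono inter_subset_right))
    (hG.mul ((dep_chi _).mono fun e he => mem_compl.2 (mem_sdiff.1 he).2)) disjoint_compl_right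

lemma fc_inv (g : (ι → Bool) → ℝ) (x : ι → Bool) : ∑ A, fc g A * chi A x = g x := by
  have h1 : ∀ y : ι → Bool, ∑ A : Finset ι, chi A y * chi A x =
      if y = x then (2 : ℝ) ^ Fintype.card ι else 0 := by
    intro y
    have h2 : ∑ A : Finset ι, chi A y * chi A x = ∏ i, (1 + sg (y i) * sg (x i)) := by
      rw [prod_one_add, powerset_univ]
      exact sum_congr rfl fun A _ => by rw [chi, chi, prod_mul_distrib]
    rw [h2]
    split_ifs with h
    · rw [h, prod_congr rfl (g := fun _ => (2 : ℝ))]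
      · simp
      · intro i _
        cases x i <;> norm_num [sg]
    · obtain ⟨i, hi⟩ := Function.ne_iff.1 h
      refine prod_eq_zero (mem_univ i) ?_
      cases h1 : y i <;> cases h2 : x i <;> simp_all [sg]
  unfold fc
  simp only [expect_mul, mul_assoc]
  rw [← expect_sum_comm]
  simp only [← mul_sum, h1]
  rw [Fintype.expect_eq_sum_div_card]
  simp

lemma fc_parseval (g : (ι → Bool) → ℝ) : ∑ A, fc g A ^ 2 = 𝔼 x, g x ^ 2 := by
  have h := parseval_bv (fc g)
  have h1 : ∀ x, bv (fc g) x = g x := fun x => fc_inv g x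
  simp only [h1] at h
  exact h.symm

lemma fc_empty (g : (ι → Bool) → ℝ) : fc g ∅ = 𝔼 x, g x := by simp [fc, chi]

lemma expect_plant (g : (ι → Bool) → ℝ) (H : Finset ι) :
    𝔼 x, g (plantH H x) = ∑ A, if A ⊆ H then fc g A else 0 := by
  have h1 : ∀ A x, chi A (plantH H x) = chi (A \ H) x := by
    intro A x
    rw [← sdiff_union_inter A H, chi_union (disjoint_sdiff_inter A H), sdiff_union_inter]
    have e1 : chi (A ∩ H) (plantH H x) = 1 :=
      prod_eq_one fun i hi => by simp [plantH, (mem_inter.1 hi).2, sg]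
    rw [e1, mul_one]
    exact prod_congr rfl fun i hi => by simp [plantH, (mem_sdiff.1 hi).2]
  have h2 : ∀ x, g (plantH H x) = ∑ A, fc g A * chi (A \ H) x := by
    intro x
    rw [← fc_inv g (plantH H x)]
    simp only [h1]
  simp only [h2]
  rw [expect_sum_comm]
  refine sum_congr rfl fun A _ => ?_
  rw [← mul_expect, expect_chi]
  simp only [sdiff_eq_empty_iff_subset, mul_ite, mul_one, mul_zero]

lemma fc_sum {κ : Type} (s : Finset κ) (a : κ → ℝ) (g : κ → (ι → Bool) → ℝ) (A : Finset ι) :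
    fc (fun x => ∑ j ∈ s, a j * g j x) A = ∑ j ∈ s, a j * fc (g j) A := by
  unfold fc
  simp only [sum_mul, mul_expect, mul_assoc]
  rw [expect_sum_comm]

lemma nrm_mul {Y : Finset ι} {F G : (ι → Bool) → ℝ} (hF : Dep Y F) (hG : Dep Yᶜ G) {M : ℝ}
    (hM : ∀ x, |F x * G x| ≤ M) : (∑ A, fc F A ^ 2) * ∑ A, fc G A ^ 2 ≤ M ^ 2 := by
  rw [fc_parseval, fc_parseval]
  have h1 : Dep Y fun x => F x ^ 2 := fun x y h => by simp only [hF x y h]
  have h2 : Dep Yᶜ fun x => G x ^ 2 := fun x y h => by simp only [hG x y h]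
  rw [← indep h1 h2 disjoint_compl_right]
  refine (expect_le_expect (g := fun _ => M ^ 2) fun x _ => ?_).trans
    (expect_const univ_nonempty _).le
  rw [← mul_pow, ← sq_abs]
  exact pow_le_pow_left₀ (abs_nonneg _) (hM x) 2

lemma sum_split (Y : Finset ι) (φ ψ : Finset ι → ℝ) (hφ : ∀ B, ¬ B ⊆ Y → φ B = 0)
    (hψ : ∀ B, ¬ B ⊆ Yᶜ → ψ B = 0) :
    (∑ B, φ B) * ∑ B, ψ B = ∑ A, φ (A ∩ Y) * ψ (A \ Y) := by
  have h1 : ∑ B, φ B = ∑ B ∈ Y.powerset, φ B :=
    (sum_subset (subset_univ _) fun B _ hB => hφ B (by rwa [mem_powerset] at hB)).symm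
  have h2 : ∑ B, ψ B = ∑ B ∈ Yᶜ.powerset, ψ B :=
    (sum_subset (subset_univ _) fun B _ hB => hψ B (by rwa [mem_powerset] at hB)).symm
  rw [h1, h2, sum_mul_sum, ← sum_product']
  symm
  refine sum_nbij' (fun A => (A ∩ Y, A \ Y)) (fun z => z.1 ∪ z.2) ?_ (by simp) ?_ ?_ (by simp)
  · intro A _
    simp only [mem_product, mem_powerset]
    exact ⟨inter_subset_right, fun e he => mem_compl.2 (mem_sdiff.1 he).2⟩
  · intro A _
    simp only
    rw [union_comm, sdiff_union_inter]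
  · intro z hz
    simp only [mem_product, mem_powerset] at hz
    refine Prod.ext ?_ ?_
    · ext e
      have := @hz.1 e
      have := @hz.2 e
      simp only [mem_inter, mem_union, mem_compl] at *
      tauto
    · ext e
      have := @hz.1 e
      have := @hz.2 e
      simp only [mem_sdiff, mem_union, mem_compl] at *
      tauto

end Pool.Agent.Work.MP_f474fe_lc.DD
end

-- merged part: Pool.Agent.Work.MP_f474fe_lc.DD.Circ
section
/-!
Decomposable circuits with extra constants added at product gates, derivative with respect to a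
gate, the envelope bound.
-/

set_option linter.unusedSectionVars false

namespace Pool.Agent.Work.MP_f474fe_lc.DD

open Finset BigOperators Pool.Agent.Work.MP_f474fe_lc.PT

variable {ι : Type} [Fintype ι] [DecidableEq ι] {s : ℕ}

/-- Type of a gate. -/
inductive Gate (s : ℕ) : Type
  | leaf : Gate s
  | sum (a : Fin s → ℝ) : Gate s
  | prod (j k : Fin s) : Gate s

/-- Values `V` of a decomposable circuit when `η i` is added at the product gate `i`. -/
structure Circ (K : Fin s → Gate s) (X : Fin s → Finset ι) (η : Fin s → ℝ)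
    (V : Fin s → (ι → Bool) → ℝ) : Prop where
  eta : ∀ i, 0 ≤ η i
  leaf : ∀ i, K i = .leaf → Dep (X i) (V i) ∧ ∀ x, 0 ≤ V i x
  sum : ∀ i a, K i = .sum a → (∀ j, 0 ≤ a j) ∧ (∀ j, a j ≠ 0 → j < i ∧ X j ⊆ X i) ∧
    ∀ x, V i x = ∑ j, a j * V j x
  prod : ∀ i j k, K i = .prod j k → j < i ∧ k < i ∧ Disjoint (X j) (X k) ∧ X i = X j ∪ X k ∧
    ∀ x, V i x = V j x * V k x + η i

/-- Derivative of the gates with respect to the value at the gate `u`. -/
structure Der (K : Fin s → Gate s) (V : Fin s → (ι → Bool) → ℝ) (u : Fin s)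
    (D : Fin s → (ι → Bool) → ℝ) : Prop where
  self : ∀ x, D u x = 1
  leaf : ∀ i, i ≠ u → K i = .leaf → ∀ x, D i x = 0
  sum : ∀ i a, i ≠ u → K i = .sum a → ∀ x, D i x = ∑ j, a j * D j x
  prod : ∀ i j k, i ≠ u → K i = .prod j k → ∀ x, D i x = D j x * V k x + V j x * D k x

variable {K : Fin s → Gate s} {X : Fin s → Finset ι} {η : Fin s → ℝ}
  {V g D : Fin s → (ι → Bool) → ℝ} {u : Fin s}

lemma Circ.ind (C : Circ K X η V) {Q : Fin s → Prop} (hl : ∀ i, K i = .leaf → Q i)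
    (hs : ∀ i a, K i = .sum a → (∀ j, a j ≠ 0 → Q j) → Q i)
    (hp : ∀ i j k, K i = .prod j k → Q j → Q k → Q i) (i : Fin s) : Q i := by
  induction i using WellFoundedLT.induction with
  | ind i ih =>
    rcases h : K i with _ | a | ⟨j, k⟩
    · exact hl i h
    · exact hs i a h fun j hj => ih j ((C.sum i a h).2.1 j hj).1
    · exact hp i j k h (ih j (C.prod i j k h).1) (ih k (C.prod i j k h).2.1)

lemma Circ.nonneg (C : Circ K X η V) : ∀ i x, 0 ≤ V i x := by
  refine C.ind (fun i h => (C.leaf i h).2) (fun i a h ih x => ?_) fun i j k h hj hk x => ?_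
  · rw [(C.sum i a h).2.2]
    refine sum_nonneg fun j _ => ?_
    by_cases e : a j = 0
    · simp [e]
    · exact mul_nonneg ((C.sum i a h).1 j) (ih j e x)
  · rw [(C.prod i j k h).2.2.2.2]
    exact add_nonneg (mul_nonneg (hj x) (hk x)) (C.eta i)

lemma Circ.dep (C : Circ K X η V) : ∀ i, Dep (X i) (V i) := by
  refine C.ind (fun i h => (C.leaf i h).1) (fun i a h ih x y hxy => ?_)
    fun i j k h hj hk x y hxy => ?_
  · rw [(C.sum i a h).2.2, (C.sum i a h).2.2]
    refine sum_congr rfl fun j _ => ?_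
    by_cases e : a j = 0
    · simp [e]
    · rw [(ih j e).mono ((C.sum i a h).2.1 j e).2 x y hxy]
  · obtain ⟨-, -, -, h1, h2⟩ := C.prod i j k h
    rw [h2, h2, hj.mono (h1 ▸ subset_union_left) x y hxy,
      hk.mono (h1 ▸ subset_union_right) x y hxy]

lemma Circ.le (C : Circ K X 0 g) (C' : Circ K X η V) (hl : ∀ i, K i = .leaf → V i = g i) :
    ∀ i x, g i x ≤ V i x := by
  refine C.ind (fun i h x => by rw [hl i h]) (fun i a h ih x => ?_) fun i j k h hj hk x => ?_
  · rw [(C.sum i a h).2.2, (C'.sum i a h).2.2]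
    refine sum_le_sum fun j _ => ?_
    by_cases e : a j = 0
    · simp [e]
    · exact mul_le_mul_of_nonneg_left (ih j e x) ((C.sum i a h).1 j)
  · rw [(C.prod i j k h).2.2.2.2, (C'.prod i j k h).2.2.2.2]
    exact add_le_add (mul_le_mul (hj x) (hk x) (C.nonneg _ _) (C'.nonneg _ _)) (C'.eta i)

lemma exists_fix {β : Type} (b : β) (F : Fin s → (Fin s → β) → β)
    (hF : ∀ i U U', (∀ j < i, U j = U' j) → F i U = F i U') : ∃ U, ∀ i, U i = F i U := by
  refine ⟨(wellFounded_lt (α := Fin s)).fix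
    fun i r => F i fun j => if h : j < i then r j h else b, fun i => ?_⟩
  rw [WellFounded.fix_eq]
  exact hF _ _ _ fun j hj => dif_pos hj

lemma Circ.exists_der (C : Circ K X η V) (u : Fin s) : ∃ D, Der K V u D := by
  obtain ⟨D, hD⟩ := exists_fix (β := (ι → Bool) → ℝ) 0
    (fun i U => if i = u then fun _ => 1 else match K i with
      | .leaf => fun _ => 0
      | .sum a => fun x => ∑ j, a j * U j x
      | .prod j k => fun x => U j x * V k x + V j x * U k x) fun i U U' h => by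
    split_ifs
    · rfl
    rcases e : K i with _ | a | ⟨j, k⟩
    · rfl
    · funext x
      refine sum_congr rfl fun j _ => ?_
      by_cases e' : a j = 0
      · simp [e']
      · rw [h j ((C.sum i a e).2.1 j e').1]
    · simp only [h j (C.prod i j k e).1, h k (C.prod i j k e).2.1]
  refine ⟨D, fun x => by rw [hD u, if_pos rfl], fun i hi h x => ?_, fun i a hi h x => ?_,
    fun i j k hi h x => ?_⟩ <;> rw [hD i, if_neg hi, h]

lemma Der.nonneg (C : Circ K X η V) (hD : Der K V u D) : ∀ i x, 0 ≤ D i x := by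
  have h0 : ∀ i, (i ≠ u → ∀ x, 0 ≤ D i x) → ∀ x, 0 ≤ D i x := fun i h x => by
    by_cases e : i = u
    · rw [e, hD.self]; exact zero_le_one
    · exact h e x
  refine C.ind (fun i h => h0 i fun e x => (hD.leaf i e h x).ge)
    (fun i a h ih => h0 i fun e x => ?_) fun i j k h hj hk => h0 i fun e x => ?_
  · rw [hD.sum i a e h]
    refine sum_nonneg fun j _ => ?_
    by_cases e : a j = 0
    · simp [e]
    · exact mul_nonneg ((C.sum i a h).1 j) (ih j e x)
  · rw [hD.prod i j k e h]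
    exact add_nonneg (mul_nonneg (hj x) (C.nonneg _ _)) (mul_nonneg (C.nonneg _ _) (hk x))

lemma Der.zero (C : Circ K X η V) (hD : Der K V u D) :
    ∀ i, (¬ X u ⊆ X i ∨ i < u) → ∀ x, D i x = 0 := by
  have h0 : ∀ i, (¬ X u ⊆ X i ∨ i < u) → i ≠ u := by
    rintro i h rfl
    simp at h
  refine C.ind (fun i h hi => hD.leaf i (h0 i hi) h) (fun i a h ih hi x => ?_)
    fun i j k h hj hk hi x => ?_
  · rw [hD.sum i a (h0 i hi) h]
    refine sum_eq_zero fun j _ => ?_
    by_cases e : a j = 0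
    · simp [e]
    · obtain ⟨e1, e2⟩ := (C.sum i a h).2.1 j e
      rw [ih j e (hi.imp (fun h1 h2 => h1 (h2.trans e2)) e1.trans), mul_zero]
  · obtain ⟨e1, e2, -, e3, -⟩ := C.prod i j k h
    rw [hD.prod i j k (h0 i hi) h,
      hj (hi.imp (fun h1 h2 => h1 (h2.trans (e3 ▸ subset_union_left))) e1.trans),
      hk (hi.imp (fun h1 h2 => h1 (h2.trans (e3 ▸ subset_union_right))) e2.trans)]
    simp

lemma Der.or (C : Circ K X η V) (hD : Der K V u D) (hu : (X u).Nonempty) {j k : Fin s}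
    (h : Disjoint (X j) (X k)) : (∀ x, D j x = 0) ∨ ∀ x, D k x = 0 := by
  by_cases e : X u ⊆ X j
  · exact Or.inr (hD.zero C k (Or.inl fun e' => hu.ne_empty ((h.mono e e').eq_bot_of_le le_rfl)))
  · exact Or.inl (hD.zero C j (Or.inl e))

lemma Der.dep (C : Circ K X η V) (hD : Der K V u D) : ∀ i, Dep (X i \ X u) (D i) := by
  have h0 : ∀ i, (i ≠ u → Dep (X i \ X u) (D i)) → Dep (X i \ X u) (D i) := fun i h => by
    by_cases e : i = u
    · intro x y _
      rw [e, hD.self, hD.self]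
    · exact h e
  refine C.ind (fun i h => h0 i fun e x y _ => by rw [hD.leaf i e h, hD.leaf i e h])
    (fun i a h ih => h0 i fun e x y hxy => ?_) fun i j k h hj hk => h0 i fun e x y hxy => ?_
  · rw [hD.sum i a e h, hD.sum i a e h]
    refine sum_congr rfl fun j _ => ?_
    by_cases e : a j = 0
    · simp [e]
    · rw [(ih j e).mono (sdiff_subset_sdiff ((C.sum i a h).2.1 j e).2 subset_rfl) x y hxy]
  · obtain ⟨-, -, e2, e3, -⟩ := C.prod i j k h
    have key : ∀ j k : Fin s, Disjoint (X j) (X k) → X j ⊆ X i → X k ⊆ X i →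
        Dep (X j \ X u) (D j) → D j x * V k x = D j y * V k y := by
      intro j k h1 h2 h3 h4
      by_cases e : X u ⊆ X j
      · rw [h4.mono (sdiff_subset_sdiff h2 subset_rfl) x y hxy,
          (C.dep k).mono (subset_sdiff.2 ⟨h3, (h1.mono_left e).symm⟩) x y hxy]
      · rw [hD.zero C j (Or.inl e), hD.zero C j (Or.inl e), zero_mul, zero_mul]
    rw [hD.prod i j k e h, hD.prod i j k e h, mul_comm (V j x), mul_comm (V j y),
      key j k e2 (e3 ▸ subset_union_left) (e3 ▸ subset_union_right) hj,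
      key k j e2.symm (e3 ▸ subset_union_right) (e3 ▸ subset_union_left) hk]

lemma Der.dep_mul (C : Circ K X η V) (hD : Der K V u D) (i : Fin s) :
    Dep (X i) fun x => D i x * V u x := by
  by_cases e : X u ⊆ X i
  · exact ((hD.dep C i).mono sdiff_subset).mul ((C.dep u).mono e)
  · intro x y _
    simp only [hD.zero C i (Or.inl e), zero_mul]

lemma Der.le (C : Circ K X η V) (hD : Der K V u D) (hu : (X u).Nonempty) :
    ∀ i x, D i x * V u x ≤ V i x := by
  have h0 : ∀ i, (i ≠ u → ∀ x, D i x * V u x ≤ V i x) → ∀ x, D i x * V u x ≤ V i x :=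
    fun i h x => by
      by_cases e : i = u
      · rw [e, hD.self, one_mul]
      · exact h e x
  refine C.ind (fun i h => h0 i fun e x => ?_)
    (fun i a h ih => h0 i fun e x => ?_) fun i j k h hj hk => h0 i fun e x => ?_
  · rw [hD.leaf i e h, zero_mul]
    exact C.nonneg _ _
  · rw [hD.sum i a e h, (C.sum i a h).2.2, sum_mul]
    refine sum_le_sum fun j _ => ?_
    by_cases e : a j = 0
    · simp [e]
    · rw [mul_assoc]
      exact mul_le_mul_of_nonneg_left (ih j e x) ((C.sum i a h).1 j)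
  · obtain ⟨-, -, e2, -, e4⟩ := C.prod i j k h
    rw [hD.prod i j k e h, e4]
    have f1 := mul_le_mul_of_nonneg_right (hj x) (C.nonneg k x)
    have f2 := mul_le_mul_of_nonneg_left (hk x) (C.nonneg j x)
    have f3 := C.eta i
    rcases hD.or C hu e2 with h1 | h1 <;> rw [h1] <;> linarith only [f2, f3, f1]

lemma Der.step (C : Circ K X η V) (hD : Der K V u D) (hu : (X u).Nonempty) {j0 k0 : Fin s}
    (hK : K u = .prod j0 k0) {t : ℝ} (ht : 0 ≤ t) {η' : Fin s → ℝ} (h1 : η' u = η u + t)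
    (h2 : ∀ i, i ≠ u → η' i = η i) : Circ K X η' fun i x => V i x + t * D i x := by
  have hne : ∀ i, (∀ j k, K i ≠ .prod j k) → i ≠ u := by
    rintro i h rfl
    exact h _ _ hK
  refine ⟨fun i => ?_, fun i h => ?_, fun i a h => ?_, fun i j k h => ?_⟩
  · by_cases e : i = u
    · rw [e, h1]
      exact add_nonneg (C.eta u) ht
    · rw [h2 i e]
      exact C.eta i
  · simp only [hD.leaf i (hne i (by simp [h])) h, mul_zero, add_zero]
    exact C.leaf i h
  · refine ⟨(C.sum i a h).1, (C.sum i a h).2.1, fun x => ?_⟩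
    rw [(C.sum i a h).2.2, hD.sum i a (hne i (by simp [h])) h, mul_sum, ← sum_add_distrib]
    exact sum_congr rfl fun j _ => by ring
  · obtain ⟨e0, e1, e2, e3, e4⟩ := C.prod i j k h
    refine ⟨e0, e1, e2, e3, fun x => ?_⟩
    by_cases e : i = u
    · subst e
      rw [e4, hD.self, h1, hD.zero C j (Or.inr e0), hD.zero C k (Or.inr e1)]
      ring
    · rw [e4, hD.prod i j k e h, h2 i e]
      rcases hD.or C hu e2 with h1 | h1 <;> rw [h1] <;> ring

theorem envelope (C : Circ K X 0 g) (o : Fin s) (ho : ∀ x, g o x ≤ 1) (η e : Fin s → ℝ)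
    (h0 : ∀ i, 0 ≤ η i) (he : ∀ i, 0 ≤ e i)
    (hη : ∀ u, η u ≠ 0 → (∃ j k, K u = .prod j k) ∧ (X u).Nonempty ∧ ∃ y, η u ≤ e u * g u y) :
    ∃ V, Circ K X η V ∧ (∀ i, K i = .leaf → V i = g i) ∧
      ∀ x, V o x - g o x ≤ ∏ u, (1 + e u) - 1 := by
  have key : ∀ R : Finset (Fin s), ∃ V, Circ K X (fun i => if i ∈ R then η i else 0) V ∧
      (∀ i, K i = .leaf → V i = g i) ∧ ∀ x, V o x - g o x ≤ ∏ u ∈ R, (1 + e u) - 1 := by
    intro R
    induction R using Finset.induction_on with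
    | empty => exact ⟨g, by simp only [notMem_empty, if_false]; exact C, fun _ _ => rfl, by simp⟩
    | insert u R hu ih =>
      obtain ⟨V, C', hl, hb⟩ := ih
      have hP : 0 ≤ ∏ u ∈ R, (1 + e u) := prod_nonneg fun i _ => add_nonneg zero_le_one (he i)
      rw [prod_insert hu]
      by_cases z : η u = 0
      · refine ⟨V, ?_, hl, fun x => (hb x).trans (by linarith only [he, hP, mul_nonneg (he u) hP])⟩
        convert C' using 2 with i
        by_cases e : i = u
        · simp [e, z]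
        · simp [e]
      obtain ⟨⟨j, k, hK⟩, hne, y, hy⟩ := hη u z
      obtain ⟨D, hD⟩ := C'.exists_der u
      refine ⟨fun i x => V i x + η u * D i x, hD.step C' hne hK (h0 u) (by simp [hu])
        fun i hi => by simp [hi], fun i hi => ?_, fun x => ?_⟩
      · funext x
        beta_reduce
        rw [hD.leaf i (by rintro rfl; simp [hK] at hi) hi, mul_zero, add_zero, hl i hi]
      · set x' := (X u).piecewise y x with hx'
        have f1 : D o x = D o x' := hD.dep C' o _ _ fun e he => by simp [hx', (mem_sdiff.1 he).2]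
        have f2 : g u y = g u x' := C.dep u _ _ fun e he => by simp [hx', he]
        have f3 := hD.le C' hne o x'
        have f4 := mul_le_mul_of_nonneg_left (C.le C' hl u x') (hD.nonneg C' o x')
        have f5 : D o x' * g u x' ≤ ∏ u ∈ R, (1 + e u) := by linarith only [f3, f4, hb, ho, hb x', ho x']
        have f6 := mul_le_mul_of_nonneg_left f5 (he u)
        have f7 := mul_le_mul_of_nonneg_right hy (hD.nonneg C' o x')
        rw [f2] at f7
        simp only [f1]
        linarith only [f6, f7, hb, hb x]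
  simpa using key univ

theorem compare (C : Circ K X 0 g) (C' : Circ K X η V) (hl : ∀ i, K i = .leaf → V i = g i)
    (H : Finset ι) (T : Fin s → ℝ) (t1 : ∀ i, K i = .leaf → T i = 𝔼 x, g i (plantH H x))
    (t2 : ∀ i a, K i = .sum a → T i = ∑ j, a j * T j)
    (t3 : ∀ i j k, K i = .prod j k → |T j * T k - T i| ≤ η i) :
    ∀ i, |T i - 𝔼 x, g i (plantH H x)| ≤ (𝔼 x, V i (plantH H x)) - 𝔼 x, g i (plantH H x) := by
  refine C.ind (fun i h => ?_) (fun i a h ih => ?_) fun i j k h hj hk => ?_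
  · rw [t1 i h, hl i h]
    simp
  · simp only [t2 i a h, (C.sum i a h).2.2, (C'.sum i a h).2.2, expect_sum_comm, ← mul_expect,
      ← sum_sub_distrib, ← mul_sub]
    refine (abs_sum_le_sum_abs _ _).trans (sum_le_sum fun j _ => ?_)
    by_cases e : a j = 0
    · simp [e]
    · rw [abs_mul, abs_of_nonneg ((C.sum i a h).1 j)]
      exact mul_le_mul_of_nonneg_left (ih j e) ((C.sum i a h).1 j)
  · obtain ⟨-, -, e2, -, e4⟩ := C.prod i j k h
    simp only [e4, (C'.prod i j k h).2.2.2.2, Pi.zero_apply, add_zero, expect_add_distrib,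
      expect_const univ_nonempty]
    rw [indep ((C.dep j).plant H) ((C.dep k).plant H) e2,
      indep ((C'.dep j).plant H) ((C'.dep k).plant H) e2]
    have f1 : 0 ≤ 𝔼 x, g j (plantH H x) := expect_nonneg fun _ _ => C.nonneg _ _
    have f2 : 0 ≤ 𝔼 x, g k (plantH H x) := expect_nonneg fun _ _ => C.nonneg _ _
    have f3 := t3 i j k h
    generalize 𝔼 x, g j (plantH H x) = a at *
    generalize 𝔼 x, g k (plantH H x) = b at *
    generalize 𝔼 x, V j (plantH H x) = a' at *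
    generalize 𝔼 x, V k (plantH H x) = b' at *
    have f4 : |T j * T k - a * b| ≤ a' * b' - a * b := by
      have : T j * T k - a * b = (T j - a) * (T k - b) + (T j - a) * b + a * (T k - b) := by ring
      rw [this]
      refine (abs_add_three _ _ _).trans ?_
      rw [abs_mul, abs_mul, abs_mul, abs_of_nonneg f1, abs_of_nonneg f2]
      have g1 := mul_le_mul hj hk (abs_nonneg _) ((abs_nonneg _).trans hj)
      have g2 := mul_le_mul_of_nonneg_right hj f2
      have g3 := mul_le_mul_of_nonneg_left hk f1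
      linarith
    rw [abs_le] at f3 f4 ⊢
    constructor <;> linarith only [f3, f4, f3.1, f3.2, f4.1, f4.2]

end Pool.Agent.Work.MP_f474fe_lc.DD
end

-- merged part: Pool.Agent.Work.MP_f474fe_lc.DD.Thin
section
/-!
Thin edge sets (a width notion given by the absence of a tangle-like family), closure properties
and the decomposition into three parts with few ports.
-/

set_option linter.unusedSectionVars false

namespace Pool.Agent.Work.MP_f474fe_lc.DD

open Finset BigOperators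

variable {ι V : Type} [Fintype ι] [DecidableEq ι] [Fintype V] [DecidableEq V]

/-- Vertices of an edge set. -/
def vs (en : ι → Finset V) (A : Finset ι) : Finset V := A.biUnion en

/-- Boundary vertices of `B` inside `A`. -/
def bd (en : ι → Finset V) (A B : Finset ι) : Finset V := vs en B ∩ vs en (A \ B)

/-- `B` has a vertex cover with at most `r` vertices. -/
def Cov (en : ι → Finset V) (r : ℕ) (B : Finset ι) : Prop :=
  ∃ C : Finset V, C.card ≤ r ∧ ∀ e ∈ B, ∃ c ∈ C, c ∈ en e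

/-- An upward closed family without two disjoint members. -/
structure IsBig (Big : Finset ι → Prop) : Prop where
  up : ∀ B B', B ⊆ B' → Big B → Big B'
  int : ∀ B B', Disjoint B B' → Big B → ¬ Big B'

/-- Thin edge sets. -/
def Thin (en : ι → Finset V) (w : ℕ) (A : Finset ι) : Prop :=
  ∀ Big : Finset ι → Prop, IsBig Big → Big A →
    (∃ B ⊆ A, Big B ∧ Cov en (w + 1) B ∧ (bd en A B).card ≤ w) ∨
    ∃ B1 ⊆ A, ∃ B2 ⊆ A, Disjoint B1 B2 ∧ Big (B1 ∪ B2) ∧ ¬ Big B1 ∧ ¬ Big B2 ∧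
      (bd en A B1).card ≤ w ∧ (bd en A B2).card ≤ w

variable {en : ι → Finset V}

lemma mem_vs {A : Finset ι} {v : V} : v ∈ vs en A ↔ ∃ e ∈ A, v ∈ en e := mem_biUnion

lemma vs_mono {A B : Finset ι} (h : A ⊆ B) : vs en A ⊆ vs en B := biUnion_subset_biUnion_of_subset_left _ h

lemma vs_union (A B : Finset ι) : vs en (A ∪ B) = vs en A ∪ vs en B := union_biUnion

lemma Cov.mono {r r' : ℕ} {B B' : Finset ι} (h : Cov en r B) (hr : r ≤ r') (hB : B' ⊆ B) :
    Cov en r' B' := by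
  obtain ⟨C, h1, h2⟩ := h
  exact ⟨C, h1.trans hr, fun e he => h2 e (hB he)⟩

lemma Thin.mono {w w' : ℕ} {A : Finset ι} (h : Thin en w A) (hw : w ≤ w') : Thin en w' A := by
  intro Big hB hA
  rcases h Big hB hA with ⟨B, h1, h2, h3, h4⟩ | ⟨B1, h1, B2, h2, h3, h4, h5, h6, h7, h8⟩
  · exact Or.inl ⟨B, h1, h2, h3.mono (by omega) subset_rfl, h4.trans hw⟩
  · exact Or.inr ⟨B1, h1, B2, h2, h3, h4, h5, h6, h7.trans hw, h8.trans hw⟩

lemma bd_inter {A A' B : Finset ι} (h : A' ⊆ A) : bd en A' (B ∩ A') ⊆ bd en A B := by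
  refine inter_subset_inter (vs_mono inter_subset_left) (vs_mono fun e he => ?_)
  simp only [mem_sdiff, mem_inter] at he ⊢
  exact ⟨h he.1, fun h' => he.2 ⟨h', he.1⟩⟩

lemma Thin.sub {w : ℕ} {A A' : Finset ι} (h : Thin en w A) (hA : A' ⊆ A) : Thin en w A' := by
  intro Big hB hA'
  have hB' : IsBig fun B => Big (B ∩ A') :=
    ⟨fun B B' h1 => hB.up _ _ (inter_subset_inter_right h1),
      fun B B' h1 => hB.int _ _ (h1.mono inter_subset_left inter_subset_left)⟩
  rcases h _ hB' (by simpa only [inter_eq_right.2 hA] using hA') with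
    ⟨B, h1, h2, h3, h4⟩ | ⟨B1, h1, B2, h2, h3, h4, h5, h6, h7, h8⟩
  · exact Or.inl ⟨B ∩ A', inter_subset_right, h2, h3.mono le_rfl inter_subset_left,
      (card_le_card (bd_inter hA)).trans h4⟩
  · refine Or.inr ⟨B1 ∩ A', inter_subset_right, B2 ∩ A', inter_subset_right,
      h3.mono inter_subset_left inter_subset_left, ?_, h5, h6,
      (card_le_card (bd_inter hA)).trans h7, (card_le_card (bd_inter hA)).trans h8⟩
    rwa [← union_inter_distrib_right]

lemma Cov.thin {w : ℕ} {A : Finset ι} (h : Cov en (w + 1) A) : Thin en w A :=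
  fun _ _ hA => Or.inl ⟨A, subset_rfl, hA, h, by simp [bd, vs]⟩

lemma thin_empty (w : ℕ) : Thin en w ∅ := Cov.thin ⟨∅, by simp, by simp⟩

lemma bd_union {A1 A2 B : Finset ι} (h : B ⊆ A1) :
    bd en (A1 ∪ A2) B ⊆ bd en A1 B ∪ (vs en A1 ∩ vs en A2) := by
  intro v hv
  simp only [bd, mem_inter, mem_union, mem_vs, mem_sdiff] at hv ⊢
  obtain ⟨⟨e, he, hve⟩, e', ⟨he' | he', hn⟩, hve'⟩ := hv
  · exact Or.inl ⟨⟨e, he, hve⟩, e', ⟨he', hn⟩, hve'⟩
  · exact Or.inr ⟨⟨e, h he, hve⟩, e', he', hve'⟩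

lemma thin_union_aux {w : ℕ} {A1 A2 : Finset ι} (h1 : Thin en w A1)
    (hs : (vs en A1 ∩ vs en A2).card ≤ w) (Big : Finset ι → Prop) (hB : IsBig Big)
    (hA : Big A1) :
    (∃ B ⊆ A1 ∪ A2, Big B ∧ Cov en (2 * w + 1) B ∧ (bd en (A1 ∪ A2) B).card ≤ 2 * w) ∨
    ∃ B1 ⊆ A1 ∪ A2, ∃ B2 ⊆ A1 ∪ A2, Disjoint B1 B2 ∧ Big (B1 ∪ B2) ∧ ¬ Big B1 ∧ ¬ Big B2 ∧
      (bd en (A1 ∪ A2) B1).card ≤ 2 * w ∧ (bd en (A1 ∪ A2) B2).card ≤ 2 * w := by
  have key : ∀ B ⊆ A1, (bd en A1 B).card ≤ w → (bd en (A1 ∪ A2) B).card ≤ 2 * w := by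
    intro B hB' hw
    have := (card_le_card (bd_union (en := en) (A2 := A2) hB')).trans (card_union_le _ _)
    omega
  rcases h1 Big hB hA with ⟨B, h1, h2, h3, h4⟩ | ⟨B1, h1, B2, h2, h3, h4, h5, h6, h7, h8⟩
  · exact Or.inl ⟨B, h1.trans subset_union_left, h2, h3.mono (by omega) subset_rfl, key B h1 h4⟩
  · exact Or.inr ⟨B1, h1.trans subset_union_left, B2, h2.trans subset_union_left, h3, h4, h5, h6,
      key _ h1 h7, key _ h2 h8⟩

lemma Thin.union {w : ℕ} {A1 A2 : Finset ι} (h1 : Thin en w A1) (h2 : Thin en w A2)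
    (hd : Disjoint A1 A2) (hs : (vs en A1 ∩ vs en A2).card ≤ w) : Thin en (2 * w) (A1 ∪ A2) := by
  intro Big hB hA
  by_cases b1 : Big A1
  · exact thin_union_aux h1 hs Big hB b1
  by_cases b2 : Big A2
  · rw [union_comm]
    exact thin_union_aux h2 (by rwa [inter_comm]) Big hB b2
  refine Or.inr ⟨A1, subset_union_left, A2, subset_union_right, hd, hA, b1, b2, ?_, ?_⟩
  · rw [bd, union_sdiff_cancel_left hd]
    omega
  · rw [bd, union_sdiff_cancel_right hd, inter_comm]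
    omega

/-- Three parts with few ports. -/
structure Parts (en : ι → Finset V) (w : ℕ) (A : Finset ι) (W Y : Finset V)
    (B1 B2 B3 : Finset ι) : Prop where
  ne : Y.Nonempty
  sub : Y ⊆ vs en A \ W
  card : Y.card ≤ 2 * w + 2
  s1 : B1 ⊆ A
  s2 : B2 ⊆ A
  s3 : B3 ⊆ A
  cov : ∀ e ∈ A, en e ⊆ W ∪ Y ∨ e ∈ B1 ∨ e ∈ B2 ∨ e ∈ B3
  o1 : ∀ e ∈ B1, ¬ en e ⊆ W ∪ Y
  o2 : ∀ e ∈ B2, ¬ en e ⊆ W ∪ Y
  o3 : ∀ e ∈ B3, ¬ en e ⊆ W ∪ Y
  d12 : vs en B1 ∩ vs en B2 ⊆ W ∪ Y
  d13 : vs en B1 ∩ vs en B3 ⊆ W ∪ Y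
  d23 : vs en B2 ∩ vs en B3 ⊆ W ∪ Y
  p1 : (vs en B1 ∩ (W ∪ Y)).card ≤ 4 * w + 1
  p2 : (vs en B2 ∩ (W ∪ Y)).card ≤ 4 * w + 1
  p3 : (vs en B3 ∩ (W ∪ Y)).card ≤ 4 * w + 1

theorem exists_parts (h2 : ∀ e, (en e).card = 2) {w : ℕ} {A : Finset ι} {W : Finset V}
    (hT : Thin en w A) (hne : A.Nonempty) (hW : W.card ≤ 4 * w + 1)
    (hout : ∀ e ∈ A, ¬ en e ⊆ W) : ∃ Y B1 B2 B3, Parts en w A W Y B1 B2 B3 := by
  classical
  obtain ⟨e0, he0⟩ := hne
  obtain ⟨x0, hx0, hx0W⟩ := not_subset.1 (hout e0 he0)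
  have hx0A : x0 ∈ vs en A := mem_vs.2 ⟨e0, he0, hx0⟩
  set P : Finset V := insert x0 W ∩ vs en A with hP
  have hPc : P.card ≤ 4 * w + 2 :=
    (card_le_card inter_subset_left).trans ((card_insert_le _ _).trans (by omega))
  have hP0 : 0 < P.card := card_pos.2 ⟨x0, mem_inter.2 ⟨mem_insert_self _ _, hx0A⟩⟩
  have hex : ∀ x : V, ∃ e : ι, x ∈ vs en A → e ∈ A ∧ x ∈ en e := by
    intro x
    by_cases h : x ∈ vs en A
    · obtain ⟨e, h1, h2⟩ := mem_vs.1 h
      exact ⟨e, fun _ => ⟨h1, h2⟩⟩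
    · exact ⟨e0, fun h' => absurd h' h⟩
  choose ex hex using hex
  set ν : Finset ι → ℕ := fun B => (P.filter fun x => ex x ∈ B).card with hν
  have hνd : ∀ B B', Disjoint B B' → ν B + ν B' ≤ P.card := by
    intro B B' hd
    rw [← card_union_of_disjoint]
    · exact card_le_card (union_subset (filter_subset _ _) (filter_subset _ _))
    · exact disjoint_filter.2 fun x _ h h' => disjoint_left.1 hd h h'
  have hBig : IsBig fun B => P.card < 2 * ν B := by
    refine ⟨fun B B' h hB => hB.trans_le (Nat.mul_le_mul_left _ (card_le_card ?_)),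
      fun B B' hd hB hB' => ?_⟩
    · exact monotone_filter_right _ fun x _ hx => h hx
    · have := hνd B B' hd
      omega
  have hA : P.card < 2 * ν A := by
    have : ν A = P.card := congrArg card (filter_true_of_mem fun x hx => (hex x (mem_inter.1 hx).2).1)
    omega
  -- ports of a part
  have hport : ∀ (C : Finset ι) (D : Finset V), C ⊆ A → (∀ x ∈ vs en C, x ∈ P → ex x ∉ C → x ∈ D) →
      ∀ (C' : Finset ι) (Y : Finset V), C' ⊆ C → (∀ x ∈ Y, x ∈ vs en C' → x = x0 ∨ x ∈ D) →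
      (vs en C' ∩ (W ∪ Y)).card ≤ ν C + D.card := by
    intro C D hC hD C' Y hC' hY
    refine le_trans (card_le_card fun x hx => ?_) (card_union_le _ _)
    obtain ⟨h1, h2⟩ := mem_inter.1 hx
    have h3 := vs_mono hC' h1
    by_cases hxD : x ∈ D
    · exact mem_union_right _ hxD
    have hxP : x ∈ P := by
      refine mem_inter.2 ⟨?_, vs_mono hC h3⟩
      rcases mem_union.1 h2 with h | h
      · exact mem_insert_of_mem h
      · rw [(hY x h h1).resolve_right hxD]
        exact mem_insert_self _ _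
    exact mem_union_left _ (mem_filter.2 ⟨hxP, by_contra fun h => hxD (hD x h3 hxP h)⟩)
  have hbd : ∀ B ⊆ A, bd en A B ⊆ vs en A := fun B hB => inter_subset_left.trans (vs_mono hB)
  rcases hT _ hBig hA with ⟨B, h1, hb, ⟨C, hC, hcov⟩, h4⟩ | ⟨B1, h1, B2, h2', h3, h4, h5, h6, h7, h8⟩
  · set Y : Finset V := insert x0 (bd en A B ∪ C ∩ vs en B) \ W with hY
    have hZ : ∀ x, x ∈ bd en A B ∪ C ∩ vs en B → x ∈ W ∪ Y := by
      intro x hx
      by_cases h : x ∈ W
      · exact mem_union_left _ h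
      · exact mem_union_right _ (mem_sdiff.2 ⟨mem_insert_of_mem hx, h⟩)
    refine ⟨Y, B.filter fun e => ¬ en e ⊆ W ∪ Y, ∅, (A \ B).filter fun e => ¬ en e ⊆ W ∪ Y,
      ⟨x0, mem_sdiff.2 ⟨mem_insert_self _ _, hx0W⟩⟩,
      sdiff_subset_sdiff (insert_subset hx0A (union_subset (hbd B h1)
        (inter_subset_right.trans (vs_mono h1))))
        subset_rfl, ?_, (filter_subset _ _).trans h1, empty_subset _,
      (filter_subset _ _).trans sdiff_subset, ?_, fun e he => (mem_filter.1 he).2, by simp,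
      fun e he => (mem_filter.1 he).2, by simp [vs], ?_, by simp [vs], ?_, by simp [vs], ?_⟩
    · have e1 : Y.card ≤ _ := card_le_card sdiff_subset
      have e2 := card_insert_le x0 (bd en A B ∪ C ∩ vs en B)
      have e3 := card_union_le (bd en A B) (C ∩ vs en B)
      have e4 := card_le_card (inter_subset_left (s₁ := C) (s₂ := vs en B))
      omega
    · intro e he
      by_cases h : en e ⊆ W ∪ Y
      · exact Or.inl h
      by_cases h' : e ∈ B
      · exact Or.inr (Or.inl (mem_filter.2 ⟨h', h⟩))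
      · exact Or.inr (Or.inr (Or.inr (mem_filter.2 ⟨mem_sdiff.2 ⟨he, h'⟩, h⟩)))
    · exact fun x hx => hZ x (mem_union_left _
        (inter_subset_inter (vs_mono (filter_subset _ _)) (vs_mono (filter_subset _ _)) hx))
    · refine le_trans (card_le_card (t := C) fun x hx => ?_) (by omega)
      obtain ⟨h5, h6⟩ := mem_inter.1 hx
      obtain ⟨e, he, hxe⟩ := mem_vs.1 h5
      obtain ⟨he1, he2⟩ := mem_filter.1 he
      obtain ⟨c, hc, hce⟩ := hcov e he1
      by_contra hxC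
      have hne : x ≠ c := fun h => hxC (h ▸ hc)
      have : ({x, c} : Finset V) = en e :=
        eq_of_subset_of_card_le (insert_subset hxe (singleton_subset_iff.2 hce))
          (by rw [h2, card_pair hne])
      refine he2 (this ▸ insert_subset h6 (singleton_subset_iff.2 (hZ c ?_)))
      exact mem_union_right _ (mem_inter.2 ⟨hc, mem_vs.2 ⟨e, he1, hce⟩⟩)
    · have e1 := hport (A \ B) (bd en A B) sdiff_subset (fun x hx hxP hn => ?_)
        ((A \ B).filter fun e => ¬ en e ⊆ W ∪ Y) Y (filter_subset _ _) fun x hx hx' => ?_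
      · have e2 := hνd B (A \ B) disjoint_sdiff
        omega
      · obtain ⟨e2, e3⟩ := hex x (mem_inter.1 hxP).2
        refine mem_inter.2 ⟨mem_vs.2 ⟨ex x, ?_, e3⟩, hx⟩
        exact by_contra fun h => hn (mem_sdiff.2 ⟨e2, h⟩)
      · rcases mem_insert.1 (mem_sdiff.1 hx).1 with h | h
        · exact Or.inl h
        rcases mem_union.1 h with h | h
        · exact Or.inr h
        · exact Or.inr (mem_inter.2 ⟨(mem_inter.1 h).2, vs_mono (filter_subset _ _) hx'⟩)
  · set D : Finset V := bd en A B1 ∪ bd en A B2 with hD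
    set Y : Finset V := insert x0 D \ W with hY
    have hDc : D.card ≤ 2 * w := (card_union_le _ _).trans (by omega)
    have hZ : ∀ x, x ∈ D → x ∈ W ∪ Y := by
      intro x hx
      by_cases h : x ∈ W
      · exact mem_union_left _ h
      · exact mem_union_right _ (mem_sdiff.2 ⟨mem_insert_of_mem hx, h⟩)
    have hYD : ∀ C' : Finset ι, ∀ x ∈ Y, x ∈ vs en C' → x = x0 ∨ x ∈ D :=
      fun _ x hx _ => mem_insert.1 (mem_sdiff.1 hx).1
    have k12 : B2 ⊆ A \ B1 := subset_sdiff.2 ⟨h2', h3.symm⟩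
    have k21 : B1 ⊆ A \ B2 := subset_sdiff.2 ⟨h1, h3⟩
    have k31 : A \ (B1 ∪ B2) ⊆ A \ B1 := sdiff_subset_sdiff subset_rfl subset_union_left
    have k32 : A \ (B1 ∪ B2) ⊆ A \ B2 := sdiff_subset_sdiff subset_rfl subset_union_right
    refine ⟨Y, B1.filter fun e => ¬ en e ⊆ W ∪ Y, B2.filter fun e => ¬ en e ⊆ W ∪ Y,
      (A \ (B1 ∪ B2)).filter fun e => ¬ en e ⊆ W ∪ Y,
      ⟨x0, mem_sdiff.2 ⟨mem_insert_self _ _, hx0W⟩⟩,
      sdiff_subset_sdiff (insert_subset hx0A (union_subset (hbd _ h1) (hbd _ h2'))) subset_rfl, ?_,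
      (filter_subset _ _).trans h1, (filter_subset _ _).trans h2',
      (filter_subset _ _).trans sdiff_subset, ?_, fun e he => (mem_filter.1 he).2,
      fun e he => (mem_filter.1 he).2, fun e he => (mem_filter.1 he).2, ?_, ?_, ?_, ?_, ?_, ?_⟩
    · have e1 : Y.card ≤ _ := card_le_card sdiff_subset
      have e2 := card_insert_le x0 D
      omega
    · intro e he
      by_cases h : en e ⊆ W ∪ Y
      · exact Or.inl h
      by_cases h' : e ∈ B1
      · exact Or.inr (Or.inl (mem_filter.2 ⟨h', h⟩))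
      by_cases h'' : e ∈ B2
      · exact Or.inr (Or.inr (Or.inl (mem_filter.2 ⟨h'', h⟩)))
      · exact Or.inr (Or.inr (Or.inr (mem_filter.2 ⟨mem_sdiff.2 ⟨he, by simp [h', h'']⟩, h⟩)))
    · exact fun x hx => hZ x (mem_union_left _ (inter_subset_inter (vs_mono (filter_subset _ _))
        (vs_mono ((filter_subset _ _).trans k12)) hx))
    · exact fun x hx => hZ x (mem_union_left _ (inter_subset_inter (vs_mono (filter_subset _ _))
        (vs_mono ((filter_subset _ _).trans k31)) hx))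
    · exact fun x hx => hZ x (mem_union_right _ (inter_subset_inter (vs_mono (filter_subset _ _))
        (vs_mono ((filter_subset _ _).trans k32)) hx))
    · have e1 := hport B1 D h1 (fun x hx hxP hn => ?_) (B1.filter fun e => ¬ en e ⊆ W ∪ Y) Y
        (filter_subset _ _) (hYD _)
      · omega
      · obtain ⟨e2, e3⟩ := hex x (mem_inter.1 hxP).2
        exact mem_union_left _ (mem_inter.2 ⟨hx, mem_vs.2 ⟨ex x, mem_sdiff.2 ⟨e2, hn⟩, e3⟩⟩)
    · have e1 := hport B2 D h2' (fun x hx hxP hn => ?_) (B2.filter fun e => ¬ en e ⊆ W ∪ Y) Y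
        (filter_subset _ _) (hYD _)
      · omega
      · obtain ⟨e2, e3⟩ := hex x (mem_inter.1 hxP).2
        exact mem_union_right _ (mem_inter.2 ⟨hx, mem_vs.2 ⟨ex x, mem_sdiff.2 ⟨e2, hn⟩, e3⟩⟩)
    · have e1 := hport (A \ (B1 ∪ B2)) D sdiff_subset (fun x hx hxP hn => ?_)
        ((A \ (B1 ∪ B2)).filter fun e => ¬ en e ⊆ W ∪ Y) Y (filter_subset _ _) (hYD _)
      · have e2 := hνd (B1 ∪ B2) (A \ (B1 ∪ B2)) disjoint_sdiff
        omega
      · obtain ⟨e2, e3⟩ := hex x (mem_inter.1 hxP).2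
        have e4 : ex x ∈ B1 ∪ B2 := by_contra fun h => hn (mem_sdiff.2 ⟨e2, h⟩)
        rcases mem_union.1 e4 with h | h
        · exact mem_union_left _ (mem_inter.2 ⟨mem_vs.2 ⟨ex x, h, e3⟩, vs_mono k31 hx⟩)
        · exact mem_union_right _ (mem_inter.2 ⟨mem_vs.2 ⟨ex x, h, e3⟩, vs_mono k32 hx⟩)

end Pool.Agent.Work.MP_f474fe_lc.DD
end

-- merged part: Pool.Agent.Work.MP_f474fe_lc.DD.Count
section
/-!
Weighted count of thin edge sets.
-/

set_option linter.unusedSectionVars false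

namespace Pool.Agent.Work.MP_f474fe_lc.DD

open Finset BigOperators

variable {ι V : Type} [Fintype ι] [DecidableEq ι] [Fintype V] [DecidableEq V]
variable {en : ι → Finset V}

lemma sum_le_of_recon {α β : Type} (S : Finset α) (T : Finset β) (f : α → ℝ) (g : β → ℝ)
    (r : β → α) (hg : ∀ t ∈ T, 0 ≤ g t) (h : ∀ a ∈ S, ∃ t ∈ T, r t = a ∧ f a ≤ g t) :
    ∑ a ∈ S, f a ≤ ∑ t ∈ T, g t := by
  classical
  rcases S.eq_empty_or_nonempty with rfl | ⟨a0, ha0⟩
  · simpa using sum_nonneg hg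
  obtain ⟨t0, -⟩ := h a0 ha0
  have : Nonempty β := ⟨t0⟩
  choose! c hc using h
  have hinj : Set.InjOn c S := fun a ha b hb e => by rw [← (hc a ha).2.1, e, (hc b hb).2.1]
  calc ∑ a ∈ S, f a ≤ ∑ a ∈ S, g (c a) := sum_le_sum fun a ha => (hc a ha).2.2
    _ = ∑ t ∈ S.image c, g t := (sum_image hinj).symm
    _ ≤ _ := sum_le_sum_of_subset_of_nonneg (image_subset_iff.2 fun a ha => (hc a ha).1)
        fun t ht _ => hg t ht

lemma prod_one_add_le {κ : Type} (s : Finset κ) (f : κ → ℝ) (h0 : ∀ i, 0 ≤ f i)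
    (h1 : ∑ i ∈ s, f i ≤ 1) : ∏ i ∈ s, (1 + f i) ≤ 1 + 2 * ∑ i ∈ s, f i := by
  have h2 : 0 ≤ ∑ i ∈ s, f i := sum_nonneg fun i _ => h0 i
  have h3 := Real.abs_exp_sub_one_le (x := ∑ i ∈ s, f i) (by rwa [abs_of_nonneg h2])
  rw [abs_of_nonneg h2] at h3
  linarith [Real.prod_one_add_le_exp_sum s h0, le_abs_self (Real.exp (∑ i ∈ s, f i) - 1)]

lemma prod_anti {q : V → ℝ} (h0 : ∀ v, 0 ≤ q v) (h1 : ∀ v, q v ≤ 1) {s t : Finset V}
    (h : s ⊆ t) : ∏ v ∈ t, q v ≤ ∏ v ∈ s, q v := by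
  rw [← prod_sdiff h]
  exact mul_le_of_le_one_left (prod_nonneg fun v _ => h0 v)
    (prod_le_one (fun v _ => h0 v) fun v _ => h1 v)

lemma card_inside (h2 : ∀ e, (en e).card = 2) (hinj : Function.Injective en) (W Y : Finset V) :
    (univ.filter fun e => en e ⊆ W ∪ Y ∧ ¬ en e ⊆ W).card ≤ Y.card * (W ∪ Y).card := by
  rw [← card_product, ← card_image_of_injective _ hinj]
  refine le_trans (card_le_card (t := (Y ×ˢ (W ∪ Y)).image fun z => ({z.1, z.2} : Finset V)) ?_)
    card_image_le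
  intro s hs
  obtain ⟨e, he, rfl⟩ := mem_image.1 hs
  obtain ⟨h1, h3⟩ := (mem_filter.1 he).2
  obtain ⟨a, b, -, hab⟩ := card_eq_two.1 (h2 e)
  rw [hab] at h1 h3 ⊢
  simp only [insert_subset_iff, singleton_subset_iff] at h1 h3
  by_cases ha : a ∈ W
  · have hb : b ∈ Y := (mem_union.1 h1.2).resolve_left fun hb => h3 ⟨ha, hb⟩
    exact mem_image.2 ⟨(b, a), mem_product.2 ⟨hb, h1.1⟩, pair_comm _ _⟩
  · exact mem_image.2 ⟨(a, b), mem_product.2 ⟨(mem_union.1 h1.1).resolve_left ha, h1.2⟩, rfl⟩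

lemma Parts.weight {w : ℕ} {A : Finset ι} {W Y : Finset V} {B1 B2 B3 : Finset ι}
    (h : Parts en w A W Y B1 B2 B3) {q : V → ℝ} (h0 : ∀ v, 0 ≤ q v) (h1 : ∀ v, q v ≤ 1) :
    ∏ v ∈ vs en A \ W, q v ≤ (∏ v ∈ Y, q v) * ((∏ v ∈ vs en B1 \ (W ∪ Y), q v) *
      ((∏ v ∈ vs en B2 \ (W ∪ Y), q v) * ∏ v ∈ vs en B3 \ (W ∪ Y), q v)) := by
  have hd : ∀ B B' : Finset ι, vs en B ∩ vs en B' ⊆ W ∪ Y →
      Disjoint (vs en B \ (W ∪ Y)) (vs en B' \ (W ∪ Y)) := fun B B' hB =>
    disjoint_left.2 fun v hv hv' =>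
      (mem_sdiff.1 hv).2 (hB (mem_inter.2 ⟨(mem_sdiff.1 hv).1, (mem_sdiff.1 hv').1⟩))
  have hY : ∀ B : Finset ι, Disjoint Y (vs en B \ (W ∪ Y)) := fun B =>
    disjoint_left.2 fun v hv hv' => (mem_sdiff.1 hv').2 (mem_union_right _ hv)
  have hs : ∀ B ⊆ A, vs en B \ (W ∪ Y) ⊆ vs en A \ W := fun B hB =>
    sdiff_subset_sdiff (vs_mono hB) subset_union_left
  rw [← prod_union (hd _ _ h.d23), ← prod_union (disjoint_union_right.2 ⟨hd _ _ h.d12, hd _ _ h.d13⟩),
    ← prod_union (disjoint_union_right.2 ⟨hY _, disjoint_union_right.2 ⟨hY _, hY _⟩⟩)]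
  exact prod_anti h0 h1
    (union_subset h.sub (union_subset (hs _ h.s1) (union_subset (hs _ h.s2) (hs _ h.s3))))

lemma Parts.less {w : ℕ} {A : Finset ι} {W Y : Finset V} {B1 B2 B3 : Finset ι}
    (h : Parts en w A W Y B1 B2 B3) {B : Finset ι} (hB : B ⊆ A) :
    (vs en B \ (W ∪ Y)).card < (vs en A \ W).card := by
  obtain ⟨y, hy⟩ := h.ne
  refine card_lt_card ⟨sdiff_subset_sdiff (vs_mono hB) subset_union_left, fun hc => ?_⟩
  exact (mem_sdiff.1 (hc (h.sub hy))).2 (mem_union_right _ hy)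

open Classical in
lemma count_ind (h2 : ∀ e, (en e).card = 2) (hinj : Function.Injective en) (w : ℕ) {q : V → ℝ}
    (h0 : ∀ v, 0 ≤ q v) (hl : 2 ^ (24 * w + 16) * ∑ v, q v ≤ 1) (r : ℕ) :
    ∀ W : Finset V, W.card ≤ 4 * w + 1 →
      ∑ A with Thin en w A ∧ (∀ e ∈ A, ¬ en e ⊆ W) ∧ (vs en A \ W).card < r,
        ∏ v ∈ vs en A \ W, q v ≤ 1 + 2 ^ (24 * w + 16) * ∑ v, q v := by
  have hs0 : 0 ≤ ∑ v, q v := sum_nonneg fun v _ => h0 v
  have hpow : ∀ a ≤ 24 * w + 16, (2 : ℝ) ^ a * ∑ v, q v ≤ 1 := fun a ha =>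
    (mul_le_mul_of_nonneg_right (pow_le_pow_right₀ one_le_two ha) hs0).trans hl
  have h1 : ∀ v, q v ≤ 1 := fun v =>
    (single_le_sum (fun v _ => h0 v) (mem_univ v)).trans (by simpa using hpow 0 (by omega))
  induction r with
  | zero => intro W _; simp; positivity
  | succ r ih =>
  intro W hW
  set S' : Finset V → Finset (Finset ι) := fun Z => univ.filter fun B => Thin en w B ∧
    (∀ e ∈ B, ¬ en e ⊆ Z) ∧ (vs en B \ Z).card < r ∧ (vs en B ∩ Z).card ≤ 4 * w + 1 with hS'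
  have hS : ∀ Z : Finset V, ∑ B ∈ S' Z, ∏ v ∈ vs en B \ Z, q v ≤ 2 ^ Z.card * 2 := by
    intro Z
    rw [← sum_fiberwise_of_maps_to (g := fun B => vs en B ∩ Z) (t := Z.powerset)
      fun B _ => mem_powerset.2 inter_subset_right]
    refine (sum_le_card_nsmul _ _ 2 fun W' hW' => ?_).trans (by simp)
    by_cases hc : W'.card ≤ 4 * w + 1
    · refine le_trans ?_ ((ih W' hc).trans (by linarith only [hl]))
      have hsd : ∀ B, vs en B ∩ Z = W' → vs en B \ Z = vs en B \ W' := by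
        rintro B rfl
        rw [sdiff_inter_self_left]
      rw [sum_congr rfl fun B hB => by rw [hsd B (mem_filter.1 hB).2]]
      refine sum_le_sum_of_subset_of_nonneg (fun B hB => ?_)
        fun B _ _ => prod_nonneg fun v _ => h0 v
      obtain ⟨e1, e2⟩ := mem_filter.1 hB
      obtain ⟨e3, e4, e5, -⟩ := (mem_filter.1 e1).2
      exact mem_filter.2 ⟨mem_univ _, e3, fun e he h => e4 e he (h.trans (mem_powerset.1 hW')),
        hsd B e2 ▸ e5⟩
    · rw [filter_eq_empty_iff.2, sum_empty]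
      · norm_num
      · intro B hB e
        exact hc (e ▸ (mem_filter.1 hB).2.2.2.2)
  set 𝒴 : Finset (Finset V) := univ.filter fun Y => Y.Nonempty ∧ Y.card ≤ 2 * w + 2 with h𝒴
  set I : Finset V → Finset (Finset ι × Finset ι × Finset ι × Finset ι) := fun Y =>
    (univ.filter fun e => en e ⊆ W ∪ Y ∧ ¬ en e ⊆ W).powerset ×ˢ S' (W ∪ Y) ×ˢ S' (W ∪ Y) ×ˢ
      S' (W ∪ Y) with hI
  set S := univ.filter fun A => Thin en w A ∧ (∀ e ∈ A, ¬ en e ⊆ W) ∧
    (vs en A \ W).card < r + 1 with hSdef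
  have hw0 : ∀ s : Finset V, 0 ≤ ∏ v ∈ s, q v := fun s => prod_nonneg fun v _ => h0 v
  have e1 : ∑ A ∈ S, ∏ v ∈ vs en A \ W, q v ≤ 1 + ∑ A ∈ S.erase ∅, ∏ v ∈ vs en A \ W, q v := by
    by_cases h : ∅ ∈ S
    · rw [← add_sum_erase _ _ h]
      simp [vs]
    · rw [erase_eq_of_notMem h]
      linarith only []
  have e2 := sum_le_of_recon (S.erase ∅) (𝒴.sigma I) (fun A => ∏ v ∈ vs en A \ W, q v)
    (fun z => (∏ v ∈ z.1, q v) * ((∏ v ∈ vs en z.2.2.1 \ (W ∪ z.1), q v) *
      ((∏ v ∈ vs en z.2.2.2.1 \ (W ∪ z.1), q v) * ∏ v ∈ vs en z.2.2.2.2 \ (W ∪ z.1), q v)))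
    (fun z => z.2.1 ∪ (z.2.2.1 ∪ (z.2.2.2.1 ∪ z.2.2.2.2)))
    (fun z _ => mul_nonneg (hw0 _) (mul_nonneg (hw0 _) (mul_nonneg (hw0 _) (hw0 _)))) ?_
  · refine e1.trans (add_le_add le_rfl (e2.trans ?_))
    rw [sum_sigma]
    have e3 : ∀ Y ∈ 𝒴, ∑ z ∈ I Y, (∏ v ∈ Y, q v) * ((∏ v ∈ vs en z.2.1 \ (W ∪ Y), q v) *
        ((∏ v ∈ vs en z.2.2.1 \ (W ∪ Y), q v) * ∏ v ∈ vs en z.2.2.2 \ (W ∪ Y), q v)) ≤
        (2 ^ (6 * w + 3) * 2) ^ 3 * ∏ v ∈ Y, 2 ^ (6 * w + 3) * q v := by
      intro Y hY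
      have hZ : (W ∪ Y).card ≤ 6 * w + 3 := by
        have := card_union_le W Y
        have := (mem_filter.1 hY).2.2
        omega
      have f1 : ∑ B ∈ S' (W ∪ Y), ∏ v ∈ vs en B \ (W ∪ Y), q v ≤ 2 ^ (6 * w + 3) * 2 :=
        (hS _).trans (mul_le_mul_of_nonneg_right (pow_le_pow_right₀ one_le_two hZ) zero_le_two)
      have f0 : 0 ≤ ∑ B ∈ S' (W ∪ Y), ∏ v ∈ vs en B \ (W ∪ Y), q v := sum_nonneg fun _ _ => hw0 _
      have f2 : (2 : ℝ) ^ (univ.filter fun e => en e ⊆ W ∪ Y ∧ ¬ en e ⊆ W).card ≤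
          (2 ^ (6 * w + 3)) ^ Y.card := by
        rw [← pow_mul, mul_comm]
        exact pow_le_pow_right₀ one_le_two
          ((card_inside h2 hinj W Y).trans (Nat.mul_le_mul_left _ hZ))
      rw [← mul_sum, hI]
      simp only [sum_product, ← mul_sum, ← sum_mul, sum_const, card_powerset, nsmul_eq_mul]
      rw [prod_mul_distrib, prod_const]
      push_cast
      generalize ∑ B ∈ S' (W ∪ Y), ∏ v ∈ vs en B \ (W ∪ Y), q v = x at f0 f1 ⊢
      generalize (univ.filter fun e => en e ⊆ W ∪ Y ∧ ¬ en e ⊆ W).card = c at f2 ⊢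
      calc _ = (∏ v ∈ Y, q v) * (2 ^ c * (x * (x * x))) := by ring
        _ ≤ (∏ v ∈ Y, q v) * ((2 ^ (6 * w + 3)) ^ Y.card * ((2 ^ (6 * w + 3) * 2) *
            ((2 ^ (6 * w + 3) * 2) * (2 ^ (6 * w + 3) * 2)))) := by
            refine mul_le_mul_of_nonneg_left ?_ (hw0 _)
            gcongr
        _ = _ := by ring
    refine (sum_le_sum e3).trans ?_
    rw [← mul_sum]
    have e4 : ∑ Y ∈ 𝒴, ∏ v ∈ Y, 2 ^ (6 * w + 3) * q v ≤ 2 * (2 ^ (6 * w + 3) * ∑ v, q v) := by
      have f1 := prod_one_add_le univ (fun v => 2 ^ (6 * w + 3) * q v)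
        (fun v => mul_nonneg (by positivity) (h0 v)) (by rw [← mul_sum]; exact hpow _ (by omega))
      rw [prod_one_add, ← add_sum_erase _ _ (empty_mem_powerset _), prod_empty, ← mul_sum] at f1
      refine le_trans (sum_le_sum_of_subset_of_nonneg (fun Y hY => ?_)
        fun Y _ _ => prod_nonneg fun v _ => mul_nonneg (by positivity) (h0 v)) (by linarith only [f1])
      exact mem_erase.2 ⟨(mem_filter.1 hY).2.1.ne_empty, mem_powerset.2 (subset_univ _)⟩
    refine (mul_le_mul_of_nonneg_left e4 (by positivity)).trans (le_of_eq ?_)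
    ring
  · intro A hA
    obtain ⟨hne, hA⟩ := mem_erase.1 hA
    obtain ⟨a1, a2, a3⟩ := (mem_filter.1 hA).2
    obtain ⟨Y, B1, B2, B3, hp⟩ := exists_parts h2 a1 (nonempty_iff_ne_empty.2 hne) hW a2
    have hm : ∀ B ⊆ A, (∀ e ∈ B, ¬ en e ⊆ W ∪ Y) → (vs en B ∩ (W ∪ Y)).card ≤ 4 * w + 1 →
        B ∈ S' (W ∪ Y) := fun B b1 b2 b3 =>
      mem_filter.2 ⟨mem_univ _, a1.sub b1, b2, by have := hp.less b1; omega, b3⟩
    refine ⟨⟨Y, A.filter (fun e => en e ⊆ W ∪ Y), B1, B2, B3⟩, mem_sigma.2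
      ⟨mem_filter.2 ⟨mem_univ _, hp.ne, hp.card⟩, mem_product.2 ⟨mem_powerset.2 fun e he => ?_,
        mem_product.2 ⟨hm _ hp.s1 hp.o1 hp.p1, mem_product.2
          ⟨hm _ hp.s2 hp.o2 hp.p2, hm _ hp.s3 hp.o3 hp.p3⟩⟩⟩⟩, ?_, hp.weight h0 h1⟩
    · exact mem_filter.2 ⟨mem_univ _, (mem_filter.1 he).2, a2 e (mem_filter.1 he).1⟩
    · refine Subset.antisymm (union_subset (filter_subset _ _)
        (union_subset hp.s1 (union_subset hp.s2 hp.s3))) fun e he => ?_
      simp only [mem_union, mem_filter]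
      rcases hp.cov e he with h | h
      · exact Or.inl ⟨he, h⟩
      · exact Or.inr h

open Classical in
theorem thin_count (h2 : ∀ e, (en e).card = 2) (hinj : Function.Injective en) (w : ℕ) {q : V → ℝ}
    (h0 : ∀ v, 0 ≤ q v) (hl : 2 ^ (24 * w + 16) * ∑ v, q v ≤ 1) :
    ∑ A with Thin en w A, ∏ v ∈ vs en A, q v ≤ 1 + 2 ^ (24 * w + 16) * ∑ v, q v := by
  have h := count_ind h2 hinj w h0 hl (Fintype.card V + 1) ∅ (by simp)
  simp only [sdiff_empty] at h
  refine le_trans (sum_le_sum_of_subset_of_nonneg (fun A hA => ?_)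
    fun A _ _ => prod_nonneg fun v _ => h0 v) h
  refine mem_filter.2 ⟨mem_univ _, (mem_filter.1 hA).2, fun e _ he => ?_,
    Nat.lt_succ_of_le (card_le_univ _)⟩
  have := h2 e
  rw [subset_empty.1 he] at this
  simp at this

end Pool.Agent.Work.MP_f474fe_lc.DD
end

-- merged part: Pool.Agent.Work.MP_f474fe_lc.DD.Bil
section
/-!
The bilinear estimate for two thin edge sets that share many vertices.
-/

set_option linter.unusedSectionVars false

namespace Pool.Agent.Work.MP_f474fe_lc.DD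

open Finset BigOperators

variable {ι V : Type} [Fintype ι] [DecidableEq ι] [Fintype V] [DecidableEq V]

open Classical in
/-- A countable family `F` of edge sets and a planted vertex set that contains `Z` with
probability `P Z`. -/
structure Pl (en : ι → Finset V) (F : Finset ι → Prop) (lam Δ p0 : ℝ) (p : V → ℝ)
    (P : Finset V → ℝ) : Prop where
  lam_pos : 0 < lam
  cnt : ∀ q : V → ℝ, (∀ v, 0 ≤ q v) → lam * ∑ v, q v ≤ 1 →
    ∑ A with F A, ∏ v ∈ vs en A, q v ≤ 1 + lam * ∑ v, q v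
  emp : F ∅
  p_nonneg : ∀ v, 0 ≤ p v
  p0_nonneg : 0 ≤ p0
  p_le : ∀ v, p v ≤ p0
  sq : ∑ v, p v ^ 2 ≤ Δ
  P_nonneg : ∀ Z, 0 ≤ P Z
  P_le : ∀ Z, P Z ≤ ∏ v ∈ Z, p v
  P_sum : ∀ Z, P Z ≠ 0 → ∑ v ∈ Z, p v ≤ Δ
  small : 8 * lam * Δ ≤ 1

variable {en : ι → Finset V} {F : Finset ι → Prop} {lam Δ p0 : ℝ} {p : V → ℝ} {P : Finset V → ℝ}

open Classical in
lemma Pl.fiber (h : Pl en F lam Δ p0 p P) {t : ℕ} {U : Finset V} (ht : t ≤ U.card)
    (hU : ∑ v ∈ U, p v ≤ Δ) :
    ∑ B with F B ∧ U ⊆ vs en B, ∏ v ∈ vs en B, (if v ∈ U then 2 * p v else 2 * p v ^ 2) ≤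
      2 * (4 * lam * t * p0) ^ t := by
  obtain ⟨U0, hU0, hc⟩ := exists_subset_card_eq ht
  have hl := h.lam_pos
  have hp := h.p_nonneg
  have hp0 := h.p0_nonneg
  set q : V → ℝ := fun v =>
    if v ∈ U0 then 1 / (2 * lam * t) else if v ∈ U then 2 * p v else 2 * p v ^ 2 with hq
  have hq0 : ∀ v, 0 ≤ q v := fun v => by
    have := hp v
    simp only [hq]
    split_ifs <;> positivity
  have hs : lam * ∑ v, q v ≤ 1 := by
    have e1 : ∑ v, q v ≤ ∑ v, ((if v ∈ U0 then 1 / (2 * lam * t) else 0) +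
        (if v ∈ U then 2 * p v else 0) + 2 * p v ^ 2) := by
      refine sum_le_sum fun v _ => ?_
      have := hp v
      have := sq_nonneg (p v)
      simp only [hq]
      split_ifs <;> linarith
    rw [sum_add_distrib, sum_add_distrib, sum_ite_mem_eq, sum_ite_mem_eq, sum_const, hc,
      ← mul_sum, ← mul_sum, nsmul_eq_mul] at e1
    have e2 : lam * (t * (1 / (2 * lam * t))) ≤ 1 / 2 := by
      rcases Nat.eq_zero_or_pos t with rfl | h0
      · simp
      · have : (0 : ℝ) < t := by exact_mod_cast h0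
        exact le_of_eq (by field_simp)
    have e3 := mul_le_mul_of_nonneg_left e1 hl.le
    have e4 := mul_le_mul_of_nonneg_left hU hl.le
    have e5 := mul_le_mul_of_nonneg_left h.sq hl.le
    linarith only [e2, e3, e4, e5, h, h.small]
  have e1 := h.cnt q hq0 hs
  calc _ ≤ ∑ B with F B ∧ U ⊆ vs en B, (4 * lam * t * p0) ^ t * ∏ v ∈ vs en B, q v := by
        refine sum_le_sum fun B hB => ?_
        have e2 : (4 * lam * t * p0) ^ t =
            ∏ v ∈ vs en B, if v ∈ U0 then 4 * lam * t * p0 else 1 := by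
          rw [prod_ite_mem, inter_eq_right.2 (hU0.trans (mem_filter.1 hB).2.2), prod_const, hc]
        rw [e2, ← prod_mul_distrib]
        refine prod_le_prod (fun v _ => ?_) fun v _ => ?_
        · have := hp v
          split_ifs <;> positivity
        · simp only [hq]
          by_cases hv : v ∈ U0
          · have h0 : (0 : ℝ) < t := by exact_mod_cast hc ▸ card_pos.2 ⟨v, hv⟩
            rw [if_pos (hU0 hv), if_pos hv, if_pos hv]
            have : 4 * lam * t * p0 * (1 / (2 * lam * t)) = 2 * p0 := by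
              field_simp
              ring
            rw [this]
            linarith only [h, h.p_le v]
          · rw [if_neg hv, if_neg hv, one_mul]
    _ ≤ ∑ B with F B, (4 * lam * t * p0) ^ t * ∏ v ∈ vs en B, q v :=
        sum_le_sum_of_subset_of_nonneg (monotone_filter_right _ fun B _ hB => hB.1)
          fun B _ _ => mul_nonneg (by positivity) (prod_nonneg fun v _ => hq0 v)
    _ ≤ _ := by
        rw [← mul_sum, mul_comm 2]
        exact mul_le_mul_of_nonneg_left (by linarith only [hs, e1]) (by positivity)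

/-- The kernel of the Schur test. -/
noncomputable def ker (p : V → ℝ) (Z Z' : Finset V) : ℝ :=
  (∏ v ∈ Z', if v ∈ Z then 2 * p v else 2 * p v ^ 2) / 2 ^ Z.card

lemma ker_nonneg (hp : ∀ v, 0 ≤ p v) (Z Z' : Finset V) : 0 ≤ ker p Z Z' :=
  div_nonneg (prod_nonneg fun v _ => by have := hp v; split_ifs <;> positivity) (by positivity)

lemma ker_mul (p : V → ℝ) (Z Z' : Finset V) :
    ker p Z Z' * ker p Z' Z = (∏ v ∈ Z ∪ Z', p v) ^ 2 := by
  have h1 : ∀ Z Z' : Finset V, (∏ v ∈ Z', if v ∈ Z then 2 * p v else 2 * p v ^ 2) =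
      2 ^ Z'.card * ∏ v ∈ Z ∪ Z', if v ∈ Z' then (if v ∈ Z then p v else p v ^ 2) else 1 := by
    intro Z Z'
    rw [prod_ite_mem, inter_eq_right.2 subset_union_right, ← prod_const, ← prod_mul_distrib]
    exact prod_congr rfl fun v _ => by split_ifs <;> rfl
  rw [ker, ker, h1, h1, union_comm Z' Z, ← prod_pow]
  field_simp
  rw [← prod_mul_distrib]
  refine prod_congr rfl fun v hv => ?_
  by_cases a : v ∈ Z <;> by_cases b : v ∈ Z' <;> simp_all [sq]

open Classical in
lemma Pl.row (h : Pl en F lam Δ p0 p P) (t : ℕ) (Z : Finset V) :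
    ∑ B with F B ∧ t ≤ (Z ∩ vs en B).card ∧ ∑ v ∈ Z ∩ vs en B, p v ≤ Δ, ker p Z (vs en B) ≤
      2 * (4 * lam * t * p0) ^ t := by
  have hl := h.lam_pos
  have hp0 := h.p0_nonneg
  unfold ker
  rw [← sum_div, div_le_iff₀ (by positivity),
    ← sum_fiberwise_of_maps_to (g := fun B => Z ∩ vs en B) (t := Z.powerset)
      fun B _ => mem_powerset.2 inter_subset_left]
  refine (sum_le_card_nsmul _ _ (2 * (4 * lam * t * p0) ^ t) fun U hU => ?_).trans
    (by simp [mul_comm])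
  by_cases hc : t ≤ U.card ∧ ∑ v ∈ U, p v ≤ Δ
  · refine le_trans ?_ (h.fiber hc.1 hc.2)
    rw [sum_congr rfl (g := fun B => ∏ v ∈ vs en B, if v ∈ U then 2 * p v else 2 * p v ^ 2)]
    · refine sum_le_sum_of_subset_of_nonneg (fun B hB => ?_) fun B _ _ =>
        prod_nonneg fun v _ => by have := h.p_nonneg v; split_ifs <;> positivity
      obtain ⟨e1, e2⟩ := mem_filter.1 hB
      exact mem_filter.2 ⟨mem_univ _, (mem_filter.1 e1).2.1, e2 ▸ inter_subset_right⟩
    · intro B hB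
      refine prod_congr rfl fun v hv => ?_
      rw [← (mem_filter.1 hB).2]
      simp only [mem_inter, hv, and_true]
  · rw [filter_eq_empty_iff.2, sum_empty]
    · positivity
    · intro B hB e
      exact hc (e ▸ (mem_filter.1 hB).2.2)

open Classical in
theorem Pl.bil (h : Pl en F lam Δ p0 p P) (t : ℕ) (α β : Finset ι → ℝ) {M : ℝ} (hM : 0 ≤ M)
    (hn : (∑ A, α A ^ 2) * ∑ A, β A ^ 2 ≤ M ^ 2) :
    ∑ z : Finset ι × Finset ι with F z.1 ∧ F z.2 ∧ t ≤ (vs en z.1 ∩ vs en z.2).card,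
      |α z.1| * |β z.2| * P (vs en z.1 ∪ vs en z.2) ≤ 2 * (4 * lam * t * p0) ^ t * M := by
  have hl := h.lam_pos
  have hp0 := h.p0_nonneg
  set κ := 2 * (4 * lam * t * p0) ^ t with hκ
  have hκ0 : 0 ≤ κ := by positivity
  set G := univ.filter fun z : Finset ι × Finset ι => F z.1 ∧ F z.2 ∧
    t ≤ (vs en z.1 ∩ vs en z.2).card ∧ ∑ v ∈ vs en z.1 ∩ vs en z.2, p v ≤ Δ with hG
  have e1 : ∑ z : Finset ι × Finset ι with F z.1 ∧ F z.2 ∧ t ≤ (vs en z.1 ∩ vs en z.2).card,
      |α z.1| * |β z.2| * P (vs en z.1 ∪ vs en z.2) =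
      ∑ z ∈ G, |α z.1| * |β z.2| * P (vs en z.1 ∪ vs en z.2) := by
    refine (sum_subset (monotone_filter_right _ fun z _ hz => ⟨hz.1, hz.2.1, hz.2.2.1⟩)
      fun z hz hz' => ?_).symm
    by_contra hc
    obtain ⟨a, b, c⟩ := (mem_filter.1 hz).2
    refine hz' (mem_filter.2 ⟨mem_univ _, a, b, c, le_trans ?_
      (h.P_sum _ (right_ne_zero_of_mul hc))⟩)
    exact sum_le_sum_of_subset_of_nonneg inter_subset_union fun v _ _ => h.p_nonneg v
  have e2 := sum_sq_le_sum_mul_sum_of_sq_le_mul G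
    (r := fun z => |α z.1| * |β z.2| * P (vs en z.1 ∪ vs en z.2))
    (f := fun z => α z.1 ^ 2 * ker p (vs en z.1) (vs en z.2))
    (g := fun z => β z.2 ^ 2 * ker p (vs en z.2) (vs en z.1))
    (fun z _ => mul_nonneg (sq_nonneg _) (ker_nonneg h.p_nonneg _ _))
    (fun z _ => mul_nonneg (sq_nonneg _) (ker_nonneg h.p_nonneg _ _)) fun z _ => by
      rw [mul_mul_mul_comm, ker_mul, mul_pow, mul_pow, sq_abs, sq_abs]
      exact mul_le_mul_of_nonneg_left (pow_le_pow_left₀ (h.P_nonneg _) (h.P_le _) 2)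
        (by positivity)
  have e3 : ∑ z ∈ G, α z.1 ^ 2 * ker p (vs en z.1) (vs en z.2) ≤ κ * ∑ A, α A ^ 2 := by
    rw [hG, sum_filter, Fintype.sum_prod_type, mul_sum]
    refine sum_le_sum fun B _ => ?_
    rw [mul_comm κ]
    refine le_trans ?_ (mul_le_mul_of_nonneg_left (h.row t (vs en B)) (sq_nonneg _))
    rw [mul_sum, sum_filter]
    refine sum_le_sum fun B' _ => ?_
    have := mul_nonneg (sq_nonneg (α B)) (ker_nonneg h.p_nonneg (vs en B) (vs en B'))
    split_ifs with a b b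
    · exact le_rfl
    · exact absurd a.2 b
    · exact this
    · exact le_rfl
  have e4 : ∑ z ∈ G, β z.2 ^ 2 * ker p (vs en z.2) (vs en z.1) ≤ κ * ∑ A, β A ^ 2 := by
    rw [hG, sum_filter, Fintype.sum_prod_type_right, mul_sum]
    refine sum_le_sum fun B _ => ?_
    rw [mul_comm κ]
    refine le_trans ?_ (mul_le_mul_of_nonneg_left (h.row t (vs en B)) (sq_nonneg _))
    rw [mul_sum, sum_filter]
    refine sum_le_sum fun B' _ => ?_
    have := mul_nonneg (sq_nonneg (β B)) (ker_nonneg h.p_nonneg (vs en B) (vs en B'))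
    split_ifs with a b b
    · exact le_rfl
    · exact absurd ⟨a.1, inter_comm (vs en B') _ ▸ a.2.2⟩ b
    · exact this
    · exact le_rfl
  rw [e1]
  refine le_of_sq_le_sq (e2.trans ?_) (mul_nonneg hκ0 hM)
  refine (mul_le_mul e3 e4 (sum_nonneg fun z _ => mul_nonneg (sq_nonneg _)
    (ker_nonneg h.p_nonneg _ _)) (mul_nonneg hκ0 (sum_nonneg fun _ _ => sq_nonneg _))).trans ?_
  rw [mul_mul_mul_comm, mul_pow, ← pow_two]
  exact mul_le_mul_of_nonneg_left hn (sq_nonneg _)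

open Classical in
/-- A function that factors along `Y`: the coefficients cut by `Y` in many vertices are small. -/
theorem Pl.cut (h : Pl en F lam Δ p0 p P) (t : ℕ) {Y : Finset ι} {f g : (ι → Bool) → ℝ}
    (hf : Dep Y f) (hg : Dep Yᶜ g) {M : ℝ} (hM : ∀ x, |f x * g x| ≤ M) :
    ∑ A with F (A ∩ Y) ∧ F (A \ Y) ∧ t ≤ (vs en (A ∩ Y) ∩ vs en (A \ Y)).card,
      |fc (fun x => f x * g x) A| * P (vs en A) ≤ 2 * (4 * lam * t * p0) ^ t * M := by
  refine le_trans ?_ (h.bil t (fc f) (fc g) ((abs_nonneg _).trans (hM fun _ => true))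
    (nrm_mul hf hg hM))
  refine sum_le_of_recon _ _ _ _ (fun z => z.1 ∪ z.2)
    (fun z _ => mul_nonneg (by positivity) (h.P_nonneg _)) fun A hA => ?_
  have e : A ∩ Y ∪ A \ Y = A := by rw [union_comm, sdiff_union_inter]
  refine ⟨(A ∩ Y, A \ Y), mem_filter.2 ⟨mem_univ _, (mem_filter.1 hA).2⟩, e, le_of_eq ?_⟩
  rw [fc_mul hf hg, abs_mul, ← vs_union, e]

open Classical in
theorem Pl.first (h : Pl en F lam Δ p0 p P) (α : Finset ι → ℝ) (hn : ∑ A, α A ^ 2 ≤ 1) {γ : ℝ}
    (hγ : 0 ≤ γ) (hs : lam * Δ ≤ γ ^ 2) :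
    ∑ A ∈ (univ.filter F).erase ∅, |α A| * P (vs en A) ≤ γ := by
  have hl := h.lam_pos
  have e0 := mul_le_mul_of_nonneg_left h.sq hl.le
  have e1 := h.cnt (fun v => p v ^ 2) (fun v => sq_nonneg _) (by
    linarith only [e0, h, h.small, mul_nonneg hl.le (sum_nonneg fun v (_ : v ∈ univ) => sq_nonneg (p v))])
  rw [← add_sum_erase _ _ (mem_filter.2 ⟨mem_univ _, h.emp⟩)] at e1
  have e2 := sum_sq_le_sum_mul_sum_of_sq_le_mul ((univ.filter F).erase ∅)
    (r := fun A => |α A| * P (vs en A)) (f := fun A => α A ^ 2)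
    (g := fun A => ∏ v ∈ vs en A, p v ^ 2) (fun _ _ => sq_nonneg _)
    (fun _ _ => prod_nonneg fun _ _ => sq_nonneg _) fun A _ => by
      rw [mul_pow, sq_abs, prod_pow]
      exact mul_le_mul_of_nonneg_left (pow_le_pow_left₀ (h.P_nonneg _) (h.P_le _) 2) (sq_nonneg _)
  have e3 : ∑ A ∈ (univ.filter F).erase ∅, α A ^ 2 ≤ 1 :=
    (sum_le_sum_of_subset_of_nonneg (subset_univ _) fun _ _ _ => sq_nonneg _).trans hn
  refine le_of_sq_le_sq (e2.trans ?_) hγ
  refine (mul_le_of_le_one_left (sum_nonneg fun _ _ => prod_nonneg fun _ _ => sq_nonneg _)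
    e3).trans ?_
  simp only [vs, biUnion_empty, prod_empty] at e1
  simp only [vs]
  linarith

end Pool.Agent.Work.MP_f474fe_lc.DD
end

-- merged part: Pool.Agent.Work.MP_f474fe_lc.DD.Walk
section
/-!
A coefficient on a set that is not thin is split according to the gate where the walk along the
big part stops.
-/

set_option linter.unusedSectionVars false

namespace Pool.Agent.Work.MP_f474fe_lc.DD

open Finset BigOperators Pool.Agent.Work.MP_f474fe_lc.PT

variable {ι V : Type} [Fintype ι] [DecidableEq ι] [Fintype V] [DecidableEq V] {s : ℕ}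
variable {K : Fin s → Gate s} {X : Fin s → Finset ι} {g : Fin s → (ι → Bool) → ℝ}

/-- The walk for `A` stops at the gate `u`. -/
def Stop (K : Fin s → Gate s) (X : Fin s → Finset ι) (Big : Finset ι → Prop) (A : Finset ι)
    (u : Fin s) : Prop :=
  Big (A ∩ X u) ∧ (K u = .leaf ∨ ∃ j k, K u = .prod j k ∧ ¬ Big (A ∩ X j) ∧ ¬ Big (A ∩ X k))

lemma IsBig.nonempty {Big : Finset ι → Prop} (h : IsBig Big) {A Y : Finset ι} (hb : Big (A ∩ Y)) :
    Y.Nonempty := by
  rw [nonempty_iff_ne_empty]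
  rintro rfl
  rw [inter_empty] at hb
  exact h.int _ _ (disjoint_empty_left _) hb hb

lemma fc_congr {f f' : (ι → Bool) → ℝ} (h : ∀ x, f x = f' x) (A : Finset ι) : fc f A = fc f' A := by
  rw [funext h]

lemma fc_null {f : (ι → Bool) → ℝ} (h : ∀ x, f x = 0) (A : Finset ι) : fc f A = 0 := by
  simp [fc, h]

open Classical in
theorem walk (C : Circ K X 0 g) {D : Fin s → Fin s → (ι → Bool) → ℝ} (hD : ∀ u, Der K g u (D u))
    {Big : Finset ι → Prop} (hB : IsBig Big) (A : Finset ι) : ∀ i, Big (A ∩ X i) →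
      fc (g i) (A ∩ X i) = ∑ u with Stop K X Big A u, fc (fun x => D u i x * g u x) (A ∩ X i) := by
  have hz : ∀ u k, Stop K X Big A u → ¬ Big (A ∩ X k) → ∀ x, D u k x = 0 := fun u k hu hk =>
    (hD u).zero C k (Or.inl fun e => hk (hB.up _ _ (inter_subset_inter_left e) hu.1))
  have hone : ∀ i, Stop K X Big A i → (∀ u, u ≠ i → Stop K X Big A u → ∀ x, D u i x = 0) →
      fc (g i) (A ∩ X i) = ∑ u with Stop K X Big A u, fc (fun x => D u i x * g u x) (A ∩ X i) := by
    intro i hi h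
    rw [sum_eq_single_of_mem i (mem_filter.2 ⟨mem_univ _, hi⟩) fun u hu hne =>
      fc_null (fun x => by rw [h u hne (mem_filter.1 hu).2, zero_mul]) _]
    exact fc_congr (fun x => by rw [(hD i).self, one_mul]) _
  have hprod : ∀ i j k, X j ⊆ X i → Disjoint (X j) (X k) → (∀ x, g i x = g j x * g k x) →
      Big (A ∩ X j) → (∀ u, Stop K X Big A u → ∀ x, D u i x = D u j x * g k x + g j x * D u k x) →
      fc (g j) (A ∩ X j) = ∑ u with Stop K X Big A u, fc (fun x => D u j x * g u x) (A ∩ X j) →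
      fc (g i) (A ∩ X i) = ∑ u with Stop K X Big A u, fc (fun x => D u i x * g u x) (A ∩ X i) := by
    intro i j k h1 h2 h3 h4 h5 h6
    have hk : Dep (X j)ᶜ (g k) := (C.dep k).mono (subset_compl_iff_disjoint_left.2 h2)
    have e : A ∩ X i ∩ X j = A ∩ X j := by rw [inter_assoc, inter_eq_right.2 h1]
    rw [fc_congr h3, fc_mul (C.dep j) hk, e, h6, sum_mul]
    refine sum_congr rfl fun u hu => ?_
    have hu' := (mem_filter.1 hu).2
    have hk' := hB.int _ (A ∩ X k) (h2.mono inter_subset_right inter_subset_right) h4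
    rw [← e, ← fc_mul ((hD u).dep_mul C j) hk]
    refine fc_congr (fun x => ?_) _
    rw [h5 u hu', hz u k hu' hk']
    ring
  refine C.ind (fun i h hi => ?_) (fun i a h ih hi => ?_) fun i j k h hj hk hi => ?_
  · exact hone i ⟨hi, Or.inl h⟩ fun u hu _ => (hD u).leaf i hu.symm h
  · obtain ⟨-, e2, e3⟩ := C.sum i a h
    rw [fc_congr e3, fc_sum, sum_congr (s₁ := univ.filter fun u => Stop K X Big A u) rfl
      (g := fun u => ∑ j, a j * fc (fun x => D u j x * g u x) (A ∩ X i)), sum_comm]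
    · refine sum_congr rfl fun j _ => ?_
      rw [← mul_sum]
      by_cases e : a j = 0
      · simp [e]
      congr 1
      by_cases e' : A ∩ X i ⊆ X j
      · have f : A ∩ X i = A ∩ X j := Subset.antisymm (subset_inter inter_subset_left e')
          (inter_subset_inter_left (e2 j e).2)
        rw [f] at hi ⊢
        exact ih j e hi
      · rw [fc_zero (C.dep j) e', sum_eq_zero fun u _ => fc_zero ((hD u).dep_mul C j) e']
    · intro u hu
      have hne : i ≠ u := by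
        rintro rfl
        simpa [h] using (mem_filter.1 hu).2.2
      rw [← fc_sum]
      refine fc_congr (fun x => ?_) _
      rw [(hD u).sum i a hne h, sum_mul]
      exact sum_congr rfl fun j _ => mul_assoc _ _ _
  · obtain ⟨-, -, e2, e3, e4⟩ := C.prod i j k h
    simp only [Pi.zero_apply, add_zero] at e4
    have hne : (Big (A ∩ X j) ∨ Big (A ∩ X k)) → ∀ u, Stop K X Big A u → i ≠ u := by
      rintro hb u hu rfl
      rcases hu.2 with h' | ⟨j', k', h', a, b⟩
      · simp [h] at h'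
      · rw [h] at h'
        obtain ⟨rfl, rfl⟩ := Gate.prod.inj h'
        exact hb.elim a b
    by_cases b1 : Big (A ∩ X j)
    · exact hprod i j k (e3 ▸ subset_union_left) e2 e4 b1
        (fun u hu => (hD u).prod i j k (hne (Or.inl b1) u hu) h) (hj b1)
    by_cases b2 : Big (A ∩ X k)
    · exact hprod i k j (e3 ▸ subset_union_right) e2.symm (fun x => by rw [e4, mul_comm]) b2
        (fun u hu x => by rw [(hD u).prod i j k (hne (Or.inr b2) u hu) h]; ring) (hk b2)
    refine hone i ⟨hi, Or.inr ⟨j, k, h, b1, b2⟩⟩ fun u hu hu' x => ?_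
    rw [(hD u).prod i j k hu.symm h, hz u j hu' b1, hz u k hu' b2]
    simp

lemma sum_le_add {α : Type} {S S1 S2 : Finset α} {f : α → ℝ} (h0 : ∀ a, 0 ≤ f a)
    (h : ∀ a ∈ S, a ∈ S1 ∨ a ∈ S2) : ∑ a ∈ S, f a ≤ ∑ a ∈ S1, f a + ∑ a ∈ S2, f a := by
  classical
  have e1 : ∑ a ∈ S, f a ≤ ∑ a ∈ S1 ∪ S2, f a :=
    sum_le_sum_of_subset_of_nonneg (fun a ha => mem_union.2 (h a ha)) fun a _ _ => h0 a
  have e2 := sum_union_inter (s₁ := S1) (s₂ := S2) (f := f)
  have e3 : 0 ≤ ∑ a ∈ S1 ∩ S2, f a := sum_nonneg fun a _ => h0 a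
  linarith

variable {en : ι → Finset V} {w : ℕ} {lam Δ p0 : ℝ} {p : V → ℝ} {P : Finset V → ℝ}

open Classical in
theorem inner (h : Pl en (Thin en (2 * w)) lam Δ p0 p P) (C : Circ K X 0 g)
    (hL : ∀ i, K i = .leaf → Cov en (w + 1) (X i)) (v : Fin s) {M : ℝ} (hM : ∀ x, g v x ≤ M) :
    ∑ A with Thin en (2 * w) A ∧ ¬ Thin en w A, |fc (g v) A| * P (vs en A) ≤
      2 * s * (2 * (4 * lam * (w + 1 : ℕ) * p0) ^ (w + 1) * M) := by
  have hex : ∀ A : Finset ι, ∃ Big : Finset ι → Prop, ¬ Thin en w A → IsBig Big ∧ Big A ∧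
      (∀ B ⊆ A, Big B → Cov en (w + 1) B → w + 1 ≤ (bd en A B).card) ∧
      ∀ B1 ⊆ A, ∀ B2 ⊆ A, Disjoint B1 B2 → Big (B1 ∪ B2) → ¬ Big B1 → ¬ Big B2 →
        w + 1 ≤ (bd en A B1).card ∨ w + 1 ≤ (bd en A B2).card := by
    intro A
    by_cases e : Thin en w A
    · exact ⟨fun _ => True, fun e' => absurd e e'⟩
    unfold Thin at e
    push Not at e
    obtain ⟨Big, h1, h2, h3, h4⟩ := e
    refine ⟨Big, fun _ => ⟨h1, h2, h3, fun B1 a B2 b c d e f => ?_⟩⟩
    have := h4 B1 a B2 b c d e f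
    omega
  choose Big hBig using hex
  choose D hD using C.exists_der
  set κM := 2 * (4 * lam * (w + 1 : ℕ) * p0) ^ (w + 1) * M with hκ
  have hκ0 : 0 ≤ κM := by
    have := h.lam_pos
    have := h.p0_nonneg
    have := (C.nonneg v fun _ => true).trans (hM _)
    positivity
  set S := univ.filter fun A => Thin en (2 * w) A ∧ ¬ Thin en w A with hS
  have hnn : ∀ (f : (ι → Bool) → ℝ) A, 0 ≤ |fc f A| * P (vs en A) := fun f A =>
    mul_nonneg (abs_nonneg _) (h.P_nonneg _)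
  have e1 : ∀ A ∈ S, |fc (g v) A| * P (vs en A) ≤ ∑ u, if Stop K X (Big A) A u then
      |fc (fun x => D u v x * g u x) A| * P (vs en A) else 0 := by
    intro A hA
    obtain ⟨b1, b2, -⟩ := hBig A (mem_filter.1 hA).2.2
    rw [← sum_filter, ← sum_mul]
    refine mul_le_mul_of_nonneg_right ?_ (h.P_nonneg _)
    by_cases e : A ⊆ X v
    · have f := walk C hD b1 A v (by rwa [inter_eq_left.2 e])
      rw [inter_eq_left.2 e] at f
      rw [f]
      exact abs_sum_le_sum_abs _ _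
    · rw [fc_zero (C.dep v) e, abs_zero]
      exact sum_nonneg fun _ _ => abs_nonneg _
  refine (sum_le_sum e1).trans ?_
  rw [sum_comm]
  refine (sum_le_card_nsmul _ _ (2 * κM) fun u _ => ?_).trans (le_of_eq (by simp; ring))
  rw [← sum_filter]
  by_cases hne : (X u).Nonempty
  swap
  · rw [filter_eq_empty_iff.2, sum_empty]
    · positivity
    · exact fun A hA hs => hne ((hBig A (mem_filter.1 hA).2.2).1.nonempty hs.1)
  have hle : ∀ x, |D u v x * g u x| ≤ M := fun x => by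
    rw [abs_of_nonneg (mul_nonneg ((hD u).nonneg C _ _) (C.nonneg _ _))]
    exact ((hD u).le C hne v x).trans (hM x)
  have hcut : ∀ (Y : Finset ι) (f f' : (ι → Bool) → ℝ), Dep Y f → Dep Yᶜ f' →
      (∀ x, D u v x * g u x = f x * f' x) →
      ∑ A with Thin en (2 * w) A ∧ w + 1 ≤ (bd en A (A ∩ Y)).card,
        |fc (fun x => D u v x * g u x) A| * P (vs en A) ≤ κM := by
    intro Y f f' h1 h2 h3
    simp only [h3] at hle ⊢
    refine le_trans (sum_le_sum_of_subset_of_nonneg (monotone_filter_right _ fun A _ hA => ?_)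
      fun A _ _ => hnn _ A) (h.cut (w + 1) h1 h2 hle)
    refine ⟨hA.1.sub inter_subset_left, hA.1.sub sdiff_subset, ?_⟩
    simpa only [bd, sdiff_inter_self_left] using hA.2
  have hDc : ∀ Y ⊆ X u, Dep Yᶜ (D u v) := fun Y hY =>
    ((hD u).dep C v).mono fun e he => mem_compl.2 fun h' => (mem_sdiff.1 he).2 (hY h')
  rcases hK : K u with _ | a | ⟨j, k⟩
  · have f := hcut (X u) (g u) (D u v) (C.dep u) (hDc _ subset_rfl) fun x => mul_comm _ _
    refine le_trans (sum_le_sum_of_subset_of_nonneg (fun A hA => ?_) fun A _ _ => hnn _ A)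
      (f.trans (by linarith only [hκ0]))
    obtain ⟨a1, a2⟩ := mem_filter.1 hA
    obtain ⟨a3, a4⟩ := (mem_filter.1 a1).2
    exact mem_filter.2 ⟨mem_univ _, a3, (hBig A a4).2.2.1 _ inter_subset_left a2.1
      ((hL u hK).mono le_rfl inter_subset_right)⟩
  · rw [filter_eq_empty_iff.2, sum_empty]
    · positivity
    · exact fun A _ hs => by simpa [hK] using hs.2
  · obtain ⟨-, -, e2, e3, e4⟩ := C.prod u j k hK
    simp only [Pi.zero_apply, add_zero] at e4
    have f1 := hcut (X j) (g j) (fun x => D u v x * g k x) (C.dep j)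
      ((hDc _ (e3 ▸ subset_union_left)).mul
        ((C.dep k).mono (subset_compl_iff_disjoint_left.2 e2))) fun x => by rw [e4]; ring
    have f2 := hcut (X k) (g k) (fun x => D u v x * g j x) (C.dep k)
      ((hDc _ (e3 ▸ subset_union_right)).mul
        ((C.dep j).mono (subset_compl_iff_disjoint_left.2 e2.symm))) fun x => by rw [e4]; ring
    refine le_trans (sum_le_add (hnn _) fun A hA => ?_) ((add_le_add f1 f2).trans (by linarith))
    obtain ⟨a1, a2, a5⟩ := mem_filter.1 hA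
    obtain ⟨a3, a4⟩ := (mem_filter.1 a1).2
    rcases a5 with h' | ⟨j', k', h', b1, b2⟩
    · simp [hK] at h'
    rw [hK] at h'
    obtain ⟨rfl, rfl⟩ := Gate.prod.inj h'
    rw [e3, inter_union_distrib_left] at a2
    exact ((hBig A a4).2.2.2 _ inter_subset_left _ inter_subset_left
      (e2.mono inter_subset_right inter_subset_right) a2 b1 b2).imp
      (fun h' => mem_filter.2 ⟨mem_univ _, a3, h'⟩) fun h' => mem_filter.2 ⟨mem_univ _, a3, h'⟩

end Pool.Agent.Work.MP_f474fe_lc.DD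
end

-- merged part: Pool.Agent.Work.MP_f474fe_lc.DD.Adv
section
/-!
The advantage of a decomposable circuit against an abstract planted vertex set.
-/

set_option linter.unusedSectionVars false

namespace Pool.Agent.Work.MP_f474fe_lc.DD

open Finset BigOperators Pool.Agent.Work.MP_f474fe_lc.PT

variable {ι V : Type} [Fintype ι] [DecidableEq ι] [Fintype V] [DecidableEq V] {s : ℕ}
variable {K : Fin s → Gate s} {X : Fin s → Finset ι} {g : Fin s → (ι → Bool) → ℝ}
variable {en : ι → Finset V} {w : ℕ} {lam Δ p0 : ℝ} {p : V → ℝ} {P : Finset V → ℝ}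

open Classical in
/-- Thin part of the planted mean. -/
noncomputable def tp (en : ι → Finset V) (w : ℕ) (H : Finset ι) (f : (ι → Bool) → ℝ) : ℝ :=
  ∑ A, if Thin en w A ∧ A ⊆ H then fc f A else 0

lemma tp_leaf {Y H : Finset ι} {f : (ι → Bool) → ℝ} (h : Cov en (w + 1) Y) (hf : Dep Y f) :
    tp en w H f = 𝔼 x, f (plantH H x) := by
  rw [expect_plant, tp]
  refine sum_congr rfl fun A _ => ?_
  by_cases e : A ⊆ Y
  · simp [(h.mono le_rfl e).thin]
  · simp [fc_zero hf e]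

lemma tp_sum (H : Finset ι) (a : Fin s → ℝ) {f : (ι → Bool) → ℝ}
    (h : ∀ x, f x = ∑ j, a j * g j x) : tp en w H f = ∑ j, a j * tp en w H (g j) := by
  simp only [tp, mul_sum]
  rw [sum_comm]
  refine sum_congr rfl fun A _ => ?_
  rw [fc_congr h, fc_sum]
  split_ifs <;> simp

open Classical in
lemma tp_prod (H : Finset ι) {Y : Finset ι} {f f' : (ι → Bool) → ℝ} (hf : Dep Y f)
    (hf' : Dep Yᶜ f') : |tp en w H f * tp en w H f' - tp en w H fun x => f x * f' x| ≤
      ∑ A with Thin en w (A ∩ Y) ∧ Thin en w (A \ Y) ∧ ¬ Thin en w A,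
        |fc (fun x => f x * f' x) A| * if A ⊆ H then 1 else 0 := by
  unfold tp
  rw [sum_split Y _ _ (fun B hB => by simp [fc_zero hf hB]) (fun B hB => by simp [fc_zero hf' hB]),
    ← sum_sub_distrib, sum_filter]
  refine (abs_sum_le_sum_abs _ _).trans (sum_le_sum fun A _ => ?_)
  have e : A ⊆ H ↔ A ∩ Y ⊆ H ∧ A \ Y ⊆ H := by
    rw [← union_subset_iff, union_comm, sdiff_union_inter]
  rw [fc_mul hf hf']
  by_cases a : Thin en w A
  · have a1 := a.sub (inter_subset_left (s₂ := Y))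
    have a2 := a.sub (sdiff_subset (t := Y))
    by_cases b : A ∩ Y ⊆ H <;> by_cases c : A \ Y ⊆ H <;> simp [a, a1, a2, e, b, c]
  · by_cases a1 : Thin en w (A ∩ Y) <;> by_cases a2 : Thin en w (A \ Y) <;>
      by_cases b : A ∩ Y ⊆ H <;> by_cases c : A \ Y ⊆ H <;> simp [a, a1, a2, e, b, c]

variable {Θ : Type} [Fintype Θ] [Nonempty Θ] {H : Θ → Finset ι}

lemma expect_ind {κ : Type} (hP : ∀ A, pr (fun θ => A ⊆ H θ) ≤ P (vs en A)) (S : Finset κ)
    (c : κ → ℝ) (r : κ → Finset ι) (hc : ∀ k, 0 ≤ c k) :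
    𝔼 θ, ∑ k ∈ S, c k * (if r k ⊆ H θ then (1 : ℝ) else 0) ≤ ∑ k ∈ S, c k * P (vs en (r k)) := by
  rw [expect_sum_comm]
  refine sum_le_sum fun k _ => ?_
  rw [← mul_expect]
  refine mul_le_mul_of_nonneg_left (le_of_eq_of_le ?_ (hP (r k))) (hc k)
  unfold pr
  congr!

open Classical in
theorem gate_err (h : Pl en (Thin en (2 * w)) lam Δ p0 p P)
    (hP : ∀ A, pr (fun θ => A ⊆ H θ) ≤ P (vs en A)) (C : Circ K X 0 g)
    (hL : ∀ i, K i = .leaf → Cov en (w + 1) (X i)) {v j k : Fin s} (hK : K v = .prod j k) {M : ℝ}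
    (hM : ∀ x, g v x ≤ M) :
    𝔼 θ, |tp en w (H θ) (g j) * tp en w (H θ) (g k) - tp en w (H θ) (g v)| ≤
      (2 * s + 1) * (2 * (4 * lam * (w + 1 : ℕ) * p0) ^ (w + 1) * M) := by
  obtain ⟨-, -, e2, -, e4⟩ := C.prod v j k hK
  simp only [Pi.zero_apply, add_zero] at e4
  have hk : Dep (X j)ᶜ (g k) := (C.dep k).mono (subset_compl_iff_disjoint_left.2 e2)
  have e5 : g v = fun x => g j x * g k x := funext e4
  have f1 := inner h C hL v hM
  have f2 := h.cut (w + 1) (C.dep j) hk (M := M) fun x => by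
    rw [← e4, abs_of_nonneg (C.nonneg _ _)]
    exact hM x
  rw [e5] at f1 ⊢
  refine (expect_le_expect fun θ _ => tp_prod (H θ) (C.dep j) hk).trans
    ((expect_ind hP _ _ (fun A => A) fun A => abs_nonneg _).trans ?_)
  refine le_trans (sum_le_add (fun A => mul_nonneg (abs_nonneg _) (h.P_nonneg _)) fun A hA => ?_)
    ((add_le_add f1 f2).trans (le_of_eq (by ring)))
  obtain ⟨a1, a2, a3⟩ := (mem_filter.1 hA).2
  by_cases b : (vs en (A ∩ X j) ∩ vs en (A \ X j)).card ≤ w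
  · have := a1.union a2 (disjoint_sdiff_inter A (X j)).symm b
    rw [union_comm, sdiff_union_inter] at this
    exact Or.inl (mem_filter.2 ⟨mem_univ _, this, a3⟩)
  · exact Or.inr (mem_filter.2 ⟨mem_univ _, a1.mono (by omega), a2.mono (by omega), by omega⟩)

open Classical in
lemma tp_sq (h : Pl en (Thin en (2 * w)) lam Δ p0 p P)
    (hP : ∀ A, pr (fun θ => A ⊆ H θ) ≤ P (vs en A)) {f : (ι → Bool) → ℝ}
    (hf : ∑ A, fc f A ^ 2 ≤ 1) : 𝔼 θ, tp en w (H θ) f ^ 2 ≤ 2 := by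
  have h0 : 0 ≤ ∑ A, fc f A ^ 2 := sum_nonneg fun _ _ => sq_nonneg _
  have e1 := h.bil 0 (fc f) (fc f) zero_le_one (by linarith only [hf, h0, mul_nonneg_of_nonpos_of_nonpos (Mathlib.Tactic.Linarith.sub_nonpos_of_le hf) (Mathlib.Tactic.Linarith.sub_nonpos_of_le h0)])
  simp only [← vs_union] at e1
  refine le_trans (expect_le_expect fun θ _ => ?_) ((expect_ind hP _
    (fun z : Finset ι × Finset ι => |fc f z.1| * |fc f z.2|) (fun z => z.1 ∪ z.2)
    fun z => by positivity).trans (e1.trans (by simp)))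
  rw [sq, tp, sum_mul_sum, sum_filter, Fintype.sum_prod_type]
  refine sum_le_sum fun B _ => sum_le_sum fun B' _ => ?_
  by_cases a : Thin en w B ∧ B ⊆ H θ
  · by_cases b : Thin en w B' ∧ B' ⊆ H θ
    · rw [if_pos a, if_pos b, if_pos ⟨a.1.mono (by omega), b.1.mono (by omega), Nat.zero_le _⟩,
        if_pos (union_subset a.2 b.2), mul_one, ← abs_mul]
      exact le_abs_self _
    · rw [if_neg b, mul_zero]
      positivity
  · rw [if_neg a, zero_mul]
    positivity

open Classical in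
lemma tp_mean (h : Pl en (Thin en (2 * w)) lam Δ p0 p P)
    (hP : ∀ A, pr (fun θ => A ⊆ H θ) ≤ P (vs en A)) {f : (ι → Bool) → ℝ}
    (hf : ∑ A, fc f A ^ 2 ≤ 1) {γ : ℝ} (hγ : 0 ≤ γ) (hs : lam * Δ ≤ γ ^ 2) :
    |(𝔼 θ, tp en w (H θ) f) - 𝔼 x, f x| ≤ γ := by
  have e1 := h.first (fc f) hf hγ hs
  have e2 : ∀ θ, tp en w (H θ) f - 𝔼 x, f x = ∑ A ∈ univ.erase ∅,
      fc f A * if Thin en w A ∧ A ⊆ H θ then 1 else 0 := by
    intro θ
    rw [tp, ← add_sum_erase _ _ (mem_univ ∅), if_pos ⟨thin_empty w, empty_subset _⟩, fc_empty,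
      add_sub_cancel_left]
    simp only [mul_ite, mul_one, mul_zero]
  have e3 : (𝔼 θ, tp en w (H θ) f) - 𝔼 x, f x = 𝔼 θ, (tp en w (H θ) f - 𝔼 x, f x) := by
    rw [expect_sub_distrib, expect_const univ_nonempty]
  rw [e3]
  simp only [e2]
  rw [expect_sum_comm]
  refine (abs_sum_le_sum_abs _ _).trans (le_trans ?_ e1)
  rw [← filter_ne' , ← filter_ne', filter_filter, sum_filter, sum_filter]
  refine sum_le_sum fun A _ => ?_
  by_cases a : A = ∅
  · simp [a]
  rw [if_pos a, ← mul_expect, abs_mul]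
  by_cases b : Thin en w A
  · have hnn : 0 ≤ 𝔼 θ, if Thin en w A ∧ A ⊆ H θ then (1 : ℝ) else 0 :=
      expect_nonneg fun _ _ => by positivity
    rw [if_pos ⟨b.mono (by omega), a⟩, abs_of_nonneg hnn]
    refine mul_le_mul_of_nonneg_left (le_of_eq_of_le ?_ (hP A)) (abs_nonneg _)
    simp only [b, true_and]
    unfold pr
    congr!
  · simp only [b, false_and, if_false, expect_const_zero, abs_zero, mul_zero]
    split_ifs
    · exact mul_nonneg (abs_nonneg _) (h.P_nonneg _)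
    · exact le_rfl

open Classical in
theorem adv (h : Pl en (Thin en (2 * w)) lam Δ p0 p P)
    (hP : ∀ A, pr (fun θ => A ⊆ H θ) ≤ P (vs en A)) (C : Circ K X 0 g)
    (hL : ∀ i, K i = .leaf → Cov en (w + 1) (X i)) (o : Fin s) (ho : ∀ x, g o x ≤ 1) {γ : ℝ}
    (hγ : 0 < γ) (hγ1 : γ ≤ 1) (hs : lam * Δ ≤ γ ^ 2) :
    |(𝔼 θ, 𝔼 x, g o (plantH (H θ) x)) - 𝔼 x, g o x| ≤
      5 * γ + 2 * (s * ((2 * s + 1) * (2 * (4 * lam * (w + 1 : ℕ) * p0) ^ (w + 1)))) / γ ^ 2 := by
  set κ := (2 * s + 1) * (2 * (4 * lam * (w + 1 : ℕ) * p0) ^ (w + 1)) with hκ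
  have hκ0 : 0 ≤ κ := by
    have := h.lam_pos
    have := h.p0_nonneg
    positivity
  have hy : ∀ u, ∃ y, ∀ x, g u x ≤ g u y := fun u => Finite.exists_max (g u)
  choose y hy using hy
  set η : Θ → Fin s → ℝ := fun θ u => match K u with
    | .prod j k => |tp en w (H θ) (g j) * tp en w (H θ) (g k) - tp en w (H θ) (g u)|
    | _ => 0 with hη
  have η0 : ∀ θ u, 0 ≤ η θ u := fun θ u => by
    simp only [hη]
    split
    · exact abs_nonneg _
    · exact le_rfl
  have η1 : ∀ u, 𝔼 θ, η θ u ≤ κ * g u (y u) := fun u => by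
    simp only [hη]
    split
    · rename_i j k hK
      exact (gate_err h hP C hL hK (hy u)).trans (le_of_eq (by rw [hκ]; ring))
    · simpa using mul_nonneg hκ0 (C.nonneg _ _)
  have η2 : ∀ θ u, η θ u ≠ 0 → (∃ j k, K u = .prod j k) ∧ (X u).Nonempty := fun θ u hne => by
    simp only [hη] at hne
    split at hne
    · rename_i j k hK
      refine ⟨⟨j, k, hK⟩, nonempty_iff_ne_empty.2 fun e => hne ?_⟩
      obtain ⟨-, -, -, e3, e4⟩ := C.prod u j k hK
      have hc : ∀ i, X i ⊆ X u → tp en w (H θ) (g i) = g i (y u) := fun i hi => by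
        have d : Dep ∅ (g i) := (C.dep i).mono (e ▸ hi)
        rw [tp_leaf ⟨∅, by simp, by simp⟩ d, expect_congr rfl fun x _ => d _ (y u) (by simp),
          expect_const univ_nonempty]
      rw [hc j (e3 ▸ subset_union_left), hc k (e3 ▸ subset_union_right), hc u subset_rfl, e4]
      simp
    · exact absurd rfl hne
  set e : Θ → Fin s → ℝ := fun θ u => η θ u / g u (y u) with he
  have e0 : ∀ θ u, 0 ≤ e θ u := fun θ u => div_nonneg (η0 θ u) (C.nonneg _ _)
  have e1 : ∀ u, 𝔼 θ, e θ u ≤ κ := fun u => by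
    simp only [he]
    rw [← expect_div]
    exact div_le_of_le_mul₀ (C.nonneg _ _) hκ0 (η1 u)
  have e2 : ∀ θ u, η θ u ≤ e θ u * g u (y u) := fun θ u => by
    by_cases z : g u (y u) = 0
    · have f := η1 u
      rw [z, mul_zero] at f ⊢
      exact ((expect_eq_zero_iff_of_nonneg fun θ _ => η0 θ u).1
        (le_antisymm f (expect_nonneg fun θ _ => η0 θ u)) θ (mem_univ _)).le
    · exact (div_mul_cancel₀ _ z).ge
  have hf : ∑ A, fc (g o) A ^ 2 ≤ 1 := by
    rw [fc_parseval]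
    exact (expect_le_expect (g := fun _ => (1 : ℝ)) fun x _ =>
      pow_le_one₀ (C.nonneg _ _) (ho x)).trans (expect_const univ_nonempty _).le
  have key : ∀ θ, |tp en w (H θ) (g o) - 𝔼 x, g o (plantH (H θ) x)| ≤
      2 * γ + γ * tp en w (H θ) (g o) ^ 2 + 2 / γ ^ 2 * ∑ u, e θ u := by
    intro θ
    have s0 : 0 ≤ ∑ u, e θ u := sum_nonneg fun u _ => e0 θ u
    have s1 : 0 ≤ 2 / γ ^ 2 * ∑ u, e θ u := by positivity
    have s2 : 0 ≤ γ * tp en w (H θ) (g o) ^ 2 := by positivity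
    by_cases b : ∑ u, e θ u ≤ γ
    · obtain ⟨W, C', hl, hb⟩ := envelope C o ho (η θ) (e θ) (η0 θ) (e0 θ)
        fun u hu => ⟨(η2 θ u hu).1, (η2 θ u hu).2, y u, e2 θ u⟩
      have f1 := compare C C' hl (H θ) (fun i => tp en w (H θ) (g i))
        (fun i hi => tp_leaf (hL i hi) (C.dep i)) (fun i a hi => tp_sum _ a (C.sum i a hi).2.2)
        (fun i j k hi => by simp only [hη, hi]; exact le_rfl) o
      have f2 := prod_one_add_le univ (e θ) (e0 θ) (b.trans hγ1)
      rw [← expect_sub_distrib] at f1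
      have f3 := (expect_le_expect fun x (_ : x ∈ univ) => hb (plantH (H θ) x)).trans
        (expect_const univ_nonempty _).le
      linarith only [s1, s2, b, f1, f2, f3]
    · have f1 : 0 ≤ 𝔼 x, g o (plantH (H θ) x) := expect_nonneg fun _ _ => C.nonneg _ _
      have f2 : 𝔼 x, g o (plantH (H θ) x) ≤ 1 :=
        (expect_le_expect (g := fun _ => (1 : ℝ)) fun x _ => ho _).trans
          (expect_const univ_nonempty _).le
      have f3 : 2 / γ ≤ 2 / γ ^ 2 * ∑ u, e θ u := by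
        refine le_trans (le_of_eq ?_) (mul_le_mul_of_nonneg_left (not_le.1 b).le (by positivity))
        field_simp
      have f4 : 1 ≤ 1 / γ := one_le_one_div hγ hγ1
      have f5 : |tp en w (H θ) (g o)| ≤ γ * tp en w (H θ) (g o) ^ 2 + 1 / γ := by
        rw [← sq_abs, ← sub_le_iff_le_add', le_div_iff₀ hγ]
        linarith only [sq_nonneg (γ * |tp en w (H θ) (g o)| - 1),
          sq_nonneg (γ * |tp en w (H θ) (g o)|), sq_nonneg (γ * |tp en w (H θ) (g o)|), sq_nonneg (γ * |tp en w (H θ) (g o)| - (1 : ℝ))]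
      have f6 : 2 / γ = 1 / γ + 1 / γ := by ring
      refine (abs_sub _ _).trans ?_
      rw [abs_of_nonneg f1]
      linarith only [hγ, f2, f3, f4, f5, f6]
  have k1 := tp_mean h hP hf hγ.le hs
  have k2 := mul_le_mul_of_nonneg_left (tp_sq h hP hf) hγ.le
  have k3 : 𝔼 θ, ∑ u, e θ u ≤ s * κ := by
    rw [expect_sum_comm]
    exact (sum_le_card_nsmul _ _ κ fun u _ => e1 u).trans (by simp)
  have k4 := mul_le_mul_of_nonneg_left k3 (show 0 ≤ 2 / γ ^ 2 by positivity)
  have k5 : |(𝔼 θ, tp en w (H θ) (g o)) - 𝔼 θ, 𝔼 x, g o (plantH (H θ) x)| ≤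
      2 * γ + γ * (𝔼 θ, tp en w (H θ) (g o) ^ 2) + 2 / γ ^ 2 * 𝔼 θ, ∑ u, e θ u := by
    have k6 := expect_le_expect fun θ (_ : θ ∈ univ) => (le_abs_self _).trans (key θ)
    have k7 := expect_le_expect fun θ (_ : θ ∈ univ) => (neg_le_abs _).trans (key θ)
    simp only [neg_sub, expect_sub_distrib, expect_add_distrib, expect_const univ_nonempty,
      ← mul_expect] at k6 k7
    exact abs_sub_le_iff.2 ⟨k6, k7⟩
  have k8 : 2 / γ ^ 2 * (s * κ) = 2 * (s * κ) / γ ^ 2 := by ring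
  rw [abs_le] at k1 k5 ⊢
  constructor <;> linarith only [k1, k2, k4, k5, k8, k1.1, k1.2, k5.1, k5.2]

end Pool.Agent.Work.MP_f474fe_lc.DD
end

-- merged part: Pool.Agent.Work.MP_f474fe_lc.DD.Main
section
/-!
Monotone decomposable circuits do not detect the k-partite bipartite planted clique.
-/

set_option linter.unusedSectionVars false

namespace Pool.Agent.Work.MP_f474fe_lc.DD

open Finset BigOperators Pool.Agent.Work.MP_f474fe_lc.PT

/-- The two ends of a position. -/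
def ends {m n : ℕ} (e : Fin m × Fin n) : Finset (Fin m ⊕ Fin n) := {Sum.inl e.1, Sum.inr e.2}

lemma ends_card {m n : ℕ} (e : Fin m × Fin n) : (ends e).card = 2 := card_pair (by simp)

lemma ends_inj {m n : ℕ} : Function.Injective (ends (m := m) (n := n)) := by
  intro e e' h
  have h1 : Sum.inl e.1 ∈ ends e' := h ▸ by simp [ends]
  have h2 : Sum.inr e.2 ∈ ends e' := h ▸ by simp [ends]
  simp only [ends, mem_insert, mem_singleton, Sum.inl.injEq, Sum.inr.injEq, reduceCtorEq,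
    or_false, false_or] at h1 h2
  exact Prod.ext h1 h2

lemma Lines.cov {m n t : ℕ} {X : Finset (Fin m × Fin n)} (h : Lines t X) : Cov ends t X := by
  obtain ⟨R, C, h1, h2⟩ := h
  refine ⟨R.disjSum C, by rwa [card_disjSum], fun e he => ?_⟩
  rcases h2 e he with h | h
  · exact ⟨Sum.inl e.1, by simpa using h, by simp [ends]⟩
  · exact ⟨Sum.inr e.2, by simpa using h, by simp [ends]⟩

lemma pr_and {α β : Type} [Fintype α] [Fintype β] (P : α → Prop) (Q : β → Prop) :
    pr (fun θ : α × β => P θ.1 ∧ Q θ.2) = pr P * pr Q := by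
  unfold pr
  rw [expect_mul_expect, ← univ_product_univ, expect_product]
  refine expect_congr rfl fun a _ => expect_congr rfl fun b _ => ?_
  by_cases h : P a <;> by_cases h' : Q b <;> simp [h, h']

lemma exists_of_pr {α : Type} [Fintype α] {P : α → Prop} (h : pr P ≠ 0) : ∃ a, P a := by
  by_contra hc
  push Not at hc
  exact h (by simp [pr, hc])

lemma ratio_le {k m N t : ℕ} (hN : 0 < N) (hNm : N ≤ m) (h : 2 ^ (96 * t) * k ^ 2 ≤ m) :
    (k : ℝ) / m ≤ 1 / (2 ^ (48 * t) * √N) := by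
  have hm : (0 : ℝ) < m := by exact_mod_cast hN.trans_le hNm
  have hN' : (0 : ℝ) < √N := Real.sqrt_pos.2 (by exact_mod_cast hN)
  have h1 : (2 : ℝ) ^ (48 * t) * k ≤ √m := by
    refine Real.le_sqrt_of_sq_le ?_
    rw [mul_pow, ← pow_mul, show 48 * t * 2 = 96 * t by ring]
    exact_mod_cast h
  have h2 : √(N : ℝ) ≤ √m := Real.sqrt_le_sqrt (by exact_mod_cast hNm)
  rw [div_le_div_iff₀ hm (by positivity), one_mul]
  calc _ = (2 ^ (48 * t) * k) * √(N : ℝ) := by ring
    _ ≤ √m * √m := mul_le_mul h1 h2 hN'.le (Real.sqrt_nonneg _)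
    _ = m := Real.mul_self_sqrt hm.le

lemma final_num (s w : ℕ) (hs : 1 ≤ s) {r : ℝ} (hr : 0 < r) :
    2 * (s * ((2 * s + 1) * (2 * (4 * 2 ^ (24 * (2 * w) + 16) * (w + 1 : ℕ) *
      (1 / (2 ^ (48 * (w + 1)) * r))) ^ (w + 1)))) / (1 / 2 ^ (w + 1) : ℝ) ^ 2 ≤
      (s : ℝ) ^ 2 * ((w + 1 : ℕ) / r) ^ (w + 1) := by
  have h1 : (4 * 2 ^ (24 * (2 * w) + 16) * (w + 1 : ℕ) * (1 / (2 ^ (48 * (w + 1)) * r)) : ℝ) =
      (1 / 2 ^ 30) * ((w + 1 : ℕ) / r) := by
    field_simp
    ring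
  have h2 : (1 / 2 ^ (w + 1) : ℝ) ^ 2 = (1 / 4) ^ (w + 1) := by
    rw [← one_div_pow, ← pow_mul, mul_comm, pow_mul]
    norm_num
  have h3 : (1 / 2 ^ 30 : ℝ) ^ (w + 1) ≤ (1 / 12) * (1 / 4) ^ (w + 1) := by
    rw [pow_succ' (1 / 2 ^ 30 : ℝ), pow_succ' (1 / 4 : ℝ), ← mul_assoc]
    exact mul_le_mul (by norm_num) (pow_le_pow_left₀ (by norm_num) (by norm_num) w)
      (by positivity) (by norm_num)
  have h4 : (1 : ℝ) ≤ s := by exact_mod_cast hs
  rw [h1, h2, mul_pow, div_le_iff₀ (by positivity)]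
  have h5 : 0 ≤ (((w + 1 : ℕ) : ℝ) / r) ^ (w + 1) := by positivity
  have h6 : 0 ≤ (1 / 4 : ℝ) ^ (w + 1) := by positivity
  generalize (((w + 1 : ℕ) : ℝ) / r) ^ (w + 1) = a at *
  generalize (1 / 4 : ℝ) ^ (w + 1) = b at *
  calc _ ≤ 2 * (s * ((3 * s) * (2 * ((1 / 12) * b * a)))) := by
        gcongr
        linarith only [h4]
    _ = _ := by ring

theorem dd_main (m n km kn : ℕ) (E : Fin n → Fin kn) (h1 : 1 ≤ km) (h2 : 1 ≤ kn) (h3 : kn ∣ n)
    (h4 : ∀ j, (univ.filter fun v => E v = j).card = n / kn) (t s : ℕ) (ht : 1 ≤ t)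
    (hm : 2 ^ (96 * t) * km ^ 2 ≤ m) (hn : 2 ^ (96 * t) * kn ^ 2 ≤ n)
    (f : (Fin m × Fin n → Bool) → ℝ) (hf : DecCirc t s f) (hf1 : ∀ G, f G ≤ 1) :
    |plantMean km E f - nullMean f| ≤
      5 / 2 ^ t + (s : ℝ) ^ 2 * (t / √((min m n : ℕ) : ℝ)) ^ t := by
  classical
  obtain ⟨w, rfl⟩ : ∃ w, t = w + 1 := ⟨t - 1, by omega⟩
  have hp : 1 ≤ 2 ^ (96 * (w + 1)) := Nat.one_le_two_pow
  have hkm : km ≤ m := by nlinarith only [hm, hp, h1]
  have hkn : kn ≤ n := by nlinarith only [hn, hp, h2]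
  have hN : 0 < min m n := lt_min (by omega) (by omega)
  have hm0 : (0 : ℝ) < m := by exact_mod_cast (by omega : 0 < m)
  have hn0 : (0 : ℝ) < n := by exact_mod_cast (by omega : 0 < n)
  have hp1 : (0 : ℝ) ≤ km / m := div_nonneg (Nat.cast_nonneg _) hm0.le
  have hp2 : (0 : ℝ) ≤ kn / n := div_nonneg (Nat.cast_nonneg _) hn0.le
  obtain ⟨X, g, hg, o, rfl⟩ := hf
  have hex : ∀ i, ∃ k : Gate s, (k = .leaf → Lines (w + 1) (X i) ∧ Dep (X i) (g i) ∧
      ∀ G, 0 ≤ g i G) ∧ (∀ a, k = .sum a → (∀ j, 0 ≤ a j) ∧ (∀ j, a j ≠ 0 → j < i ∧ X j ⊆ X i) ∧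
        ∀ G, g i G = ∑ j, a j * g j G) ∧ ∀ j j', k = .prod j j' → j < i ∧ j' < i ∧
          Disjoint (X j) (X j') ∧ X i = X j ∪ X j' ∧ ∀ G, g i G = g j G * g j' G := by
    intro i
    rcases hg i with h | ⟨a, h⟩ | ⟨j, k, h⟩
    · exact ⟨.leaf, fun _ => h, by simp, by simp⟩
    · exact ⟨.sum a, by simp, fun a' e => Gate.sum.inj e ▸ h, by simp⟩
    · refine ⟨.prod j k, by simp, by simp, fun j' k' e => ?_⟩
      obtain ⟨rfl, rfl⟩ := Gate.prod.inj e
      exact h
  choose K hK using hex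
  have C : Circ K X 0 g := ⟨fun _ => le_rfl, fun i h => ((hK i).1 h).2, fun i => (hK i).2.1,
    fun i j k h => by simpa only [Pi.zero_apply, add_zero] using (hK i).2.2 j k h⟩
  let Θ := {S : Finset (Fin m) // S.card = km} × {T : Finset (Fin n) // Transversal E T}
  obtain ⟨T0, hT0⟩ := exists_trans E h2 hkn h4
  obtain ⟨S0, -, hS0⟩ := exists_subset_card_eq (s := (univ : Finset (Fin m))) (n := km)
    (by simpa using hkm)
  have : Nonempty Θ := ⟨(⟨S0, hS0⟩, ⟨T0, hT0⟩)⟩
  let H : Θ → Finset (Fin m × Fin n) := fun θ => θ.1.1 ×ˢ θ.2.1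
  let p : Fin m ⊕ Fin n → ℝ := Sum.elim (fun _ => (km : ℝ) / m) fun _ => (kn : ℝ) / n
  let P : Finset (Fin m ⊕ Fin n) → ℝ := fun Z =>
    pr fun θ : Θ => Z.toLeft ⊆ θ.1.1 ∧ Z.toRight ⊆ θ.2.1
  have hΔ : (km : ℝ) ^ 2 / m + (kn : ℝ) ^ 2 / n ≤ 2 / 2 ^ (96 * (w + 1)) := by
    have a1 : (km : ℝ) ^ 2 / m ≤ 1 / 2 ^ (96 * (w + 1)) := by
      rw [div_le_div_iff₀ hm0 (by positivity), one_mul, mul_comm]
      exact_mod_cast hm
    have a2 : (kn : ℝ) ^ 2 / n ≤ 1 / 2 ^ (96 * (w + 1)) := by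
      rw [div_le_div_iff₀ hn0 (by positivity), one_mul, mul_comm]
      exact_mod_cast hn
    refine (add_le_add a1 a2).trans (le_of_eq ?_)
    ring
  have hsm : (8 : ℝ) * 2 ^ (24 * (2 * w) + 16) * ((km : ℝ) ^ 2 / m + (kn : ℝ) ^ 2 / n) ≤
      (1 / 2 ^ (w + 1)) ^ 2 := by
    refine (mul_le_mul_of_nonneg_left hΔ (by positivity)).trans ?_
    rw [← mul_div_assoc, one_div_pow, div_le_div_iff₀ (by positivity) (by positivity), one_mul,
      ← pow_mul]
    calc _ = (2 : ℝ) ^ (50 * w + 22) := by ring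
      _ ≤ _ := pow_le_pow_right₀ one_le_two (by omega)
  have hγ1 : (1 / 2 ^ (w + 1) : ℝ) ≤ 1 := by
    rw [div_le_one (by positivity)]
    exact one_le_pow₀ one_le_two
  have hpl : Pl ends (Thin ends (2 * w)) (2 ^ (24 * (2 * w) + 16))
      ((km : ℝ) ^ 2 / m + (kn : ℝ) ^ 2 / n) (1 / (2 ^ (48 * (w + 1)) * √((min m n : ℕ) : ℝ))) p P := by
    refine ⟨by positivity, fun q h0 hl => ?_, thin_empty _, fun v => ?_,
      div_nonneg zero_le_one (mul_nonneg (pow_nonneg zero_le_two _) (Real.sqrt_nonneg _)),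
      fun v => ?_,
      le_of_eq ?_, fun Z => pr_nonneg _, fun Z => ?_, fun Z hZ => ?_,
      hsm.trans (pow_le_one₀ (by positivity) hγ1)⟩
    · convert thin_count ends_card ends_inj (2 * w) h0 hl
    · rcases v with v | v
      · exact hp1
      · exact hp2
    · rcases v with v | v
      · exact ratio_le hN (min_le_left _ _) hm
      · exact ratio_le hN (min_le_right _ _) hn
    · simp only [Fintype.sum_sum_type, p, Sum.elim_inl, Sum.elim_inr, sum_const, card_univ,
        Fintype.card_fin, nsmul_eq_mul]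
      clear hm hn hp
      field_simp
    · conv_rhs => rw [← toLeft_disjSum_toRight (u := Z), prod_disjSum]
      simp only [p, P, Sum.elim_inl, Sum.elim_inr, prod_const]
      rw [pr_and (fun S : {S : Finset (Fin m) // S.card = km} => Z.toLeft ⊆ S.1)
        (fun T : {T : Finset (Fin n) // Transversal E T} => Z.toRight ⊆ T.1)]
      exact mul_le_mul (subprod_subsets m km hkm _) (subprod_trans E h3 h2 hkn h4 _)
        (pr_nonneg _) (pow_nonneg hp1 _)
    · obtain ⟨θ, a1, a2⟩ := exists_of_pr hZ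
      have b1 : (Z.toLeft.card : ℝ) ≤ km := by exact_mod_cast (card_le_card a1).trans_eq θ.1.2
      have b2 : (Z.toRight.card : ℝ) ≤ kn := by
        exact_mod_cast (card_le_card a2).trans_eq (trans_card θ.2.2)
      rw [← toLeft_disjSum_toRight (u := Z), sum_disjSum]
      simp only [p, Sum.elim_inl, Sum.elim_inr, sum_const, nsmul_eq_mul]
      rw [sq, sq, mul_div_assoc, mul_div_assoc]
      exact add_le_add (mul_le_mul_of_nonneg_right b1 hp1) (mul_le_mul_of_nonneg_right b2 hp2)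
  have hP : ∀ A, pr (fun θ => A ⊆ H θ) ≤ P (vs ends A) := by
    refine fun A => pr_mono fun θ hθ => ⟨fun v hv => ?_, fun v hv => ?_⟩
    · obtain ⟨e, he, hv⟩ := mem_vs.1 (mem_toLeft.1 hv)
      obtain rfl : v = e.1 := by simpa [ends] using hv
      exact (mem_product.1 (hθ he)).1
    · obtain ⟨e, he, hv⟩ := mem_vs.1 (mem_toRight.1 hv)
      obtain rfl : v = e.2 := by simpa [ends] using hv
      exact (mem_product.1 (hθ he)).2
  have hΔ0 : (0 : ℝ) ≤ 2 ^ (24 * (2 * w) + 16) * ((km : ℝ) ^ 2 / m + (kn : ℝ) ^ 2 / n) :=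
    mul_nonneg (pow_nonneg zero_le_two _)
      (add_nonneg (div_nonneg (sq_nonneg _) hm0.le) (div_nonneg (sq_nonneg _) hn0.le))
  have key := adv hpl hP C (fun i h => ((hK i).1 h).1.cov) o hf1 (γ := 1 / 2 ^ (w + 1))
    (by positivity) hγ1 (by linarith only [hsm, hΔ0])
  have hcardG : (Fintype.card (Fin m × Fin n → Bool) : ℝ) = 2 ^ (m * n) := by simp
  have hbij : ∀ F : Finset (Fin m) × Finset (Fin n) → ℝ,
      ∑ θ : Θ, F (θ.1.1, θ.2.1) = ∑ z ∈ Secrets m km E, F z := by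
    intro F
    refine sum_nbij (fun θ : Θ => (θ.1.1, θ.2.1)) ?_ ?_ ?_ fun _ _ => rfl
    · intro θ _
      simp [Secrets, θ.1.2, θ.2.2]
    · intro θ _ θ' _ h
      simp only [Prod.mk.injEq] at h
      exact Prod.ext (Subtype.ext h.1) (Subtype.ext h.2)
    · intro ST hST
      simp only [Secrets, coe_filter, mem_univ, true_and, Set.mem_ofPred_eq] at hST
      exact ⟨(⟨ST.1, hST.1⟩, ⟨ST.2, hST.2⟩), by simp, rfl⟩
  have hsec : ((Secrets m km E).card : ℝ) = Fintype.card Θ := by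
    simpa using (hbij fun _ => 1).symm
  have hplant : ∀ (θ : Θ) (G : Fin m × Fin n → Bool),
      plant G (θ.1.1, θ.2.1) = plantH (H θ) G := by
    intro θ G
    funext e
    simp [plant, plantH, H, mem_product]
  have e1 : nullMean (g o) = 𝔼 x, g o x := by
    rw [nullMean, Fintype.expect_eq_sum_div_card, hcardG]
  have e2 : plantMean km E (g o) = 𝔼 θ, 𝔼 x, g o (plantH (H θ) x) := by
    rw [plantMean, sum_product_right, ← hbij fun z => ∑ G, g o (plant G z), hsec]
    simp only [Fintype.expect_eq_sum_div_card, hcardG, hplant, ← sum_div, div_div]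
  rw [e1, e2]
  refine key.trans (add_le_add (le_of_eq (by ring)) ?_)
  exact final_num s w o.pos (Real.sqrt_pos.2 (by exact_mod_cast hN))

end Pool.Agent.Work.MP_f474fe_lc.DD
end
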